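import Pool.Agent.H822R4.DK.Defs

/-! CFL: the Dyck language is context-free. -/

set_option autoImplicit false

namespace Pool.Agent.H822R4.DK.TCFL

open Pool.Agent.H822R4.DK

theorem foldl_none (w : List Letter) : w.foldl push1 none = none := by
  induction w with
  | nil => rfl
  | cons l w ih => rw [List.foldl_cons]; exact ih

/-- first return to the empty stack -/
theorem split (b : Bool) (w : List Letter) : ∀ t : List Bool,
    w.foldl push1 (some (t ++ [b])) = some [] →
    ∃ w1 w2, w = w1 ++ (false, b) :: w2 ∧ w1.foldl push1 (some t) = some [] ∧
      w2.foldl push1 (some []) = some [] := by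
  induction w with
  | nil => intro t h; simp at h
  | cons l w ih =>
    intro t h
    rw [List.foldl_cons] at h
    obtain ⟨x, c⟩ := l
    cases x with
    | true =>
      have h1 : push1 (some (t ++ [b])) (true, c) = some ((c :: t) ++ [b]) := rfl
      rw [h1] at h
      obtain ⟨w1, w2, hw, h2, h3⟩ := ih (c :: t) h
      exact ⟨(true, c) :: w1, w2, by rw [hw]; rfl, h2, h3⟩
    | false =>
      cases t with
      | nil =>
        have h1 : push1 (some ([] ++ [b])) (false, c) = if b = c then some [] else none := rfl
        rw [h1] at h
        by_cases hbc : b = c
        · rw [if_pos hbc] at h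
          subst hbc
          exact ⟨[], w, rfl, rfl, h⟩
        · rw [if_neg hbc, foldl_none] at h
          exact absurd h (by simp)
      | cons d t =>
        have h1 : push1 (some ((d :: t) ++ [b])) (false, c) =
          if d = c then some (t ++ [b]) else none := rfl
        rw [h1] at h
        by_cases hdc : d = c
        · rw [if_pos hdc] at h
          obtain ⟨w1, w2, hw, h2, h3⟩ := ih t h
          refine ⟨(false, c) :: w1, w2, by rw [hw]; rfl, ?_, h3⟩
          rw [List.foldl_cons]
          have h4 : push1 (some (d :: t)) (false, c) = if d = c then some t else none := rfl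
          rw [h4, if_pos hdc]
          exact h2
        · rw [if_neg hdc, foldl_none] at h
          exact absurd h (by simp)

/-- the right side of the rule for brackets of type `b` -/
def rhs (b : Bool) : List (Symbol Letter Unit) :=
  [Symbol.terminal (true, b), Symbol.nonterminal (), Symbol.terminal (false, b),
    Symbol.nonterminal ()]

open Classical in
/-- the rules -/
noncomputable def rls : Finset (ContextFreeRule Letter Unit) :=
  {⟨(), []⟩, ⟨(), rhs true⟩, ⟨(), rhs false⟩}

theorem mem_rls (r : ContextFreeRule Letter Unit) :
    r ∈ rls ↔ r = ⟨(), []⟩ ∨ r = ⟨(), rhs true⟩ ∨ r = ⟨(), rhs false⟩ := by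
  simp [rls]

/-- the grammar -/
@[reducible] noncomputable def gr : ContextFreeGrammar Letter where
  NT := Unit
  initial := ()
  rules := rls

/-- interpretation of the symbols -/
def pf (o : Option (List Bool)) (x : Symbol Letter Unit) : Option (List Bool) :=
  match x with
  | Symbol.terminal l => push1 o l
  | Symbol.nonterminal _ => o

theorem rhs_id (b : Bool) (o : Option (List Bool)) : (rhs b).foldl pf o = o := by
  cases o with
  | none => rfl
  | some s => simp [rhs, pf, push1]

theorem rule_id {r : ContextFreeRule Letter Unit} (hr : r ∈ gr.rules) (o : Option (List Bool)) :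
    r.output.foldl pf o = o := by
  rcases (mem_rls r).1 hr with rfl | rfl | rfl
  · rfl
  · exact rhs_id true o
  · exact rhs_id false o

theorem derives_inv {u v : List (Symbol Letter gr.NT)} (h : gr.Derives u v) :
    ∀ o : Option (List Bool), List.foldl pf o v = List.foldl pf o u := by
  intro o
  induction h with
  | refl => rfl
  | tail _ last ih =>
    rw [← ih]
    obtain ⟨r, hr, hrw⟩ := last
    obtain ⟨p, q, rfl, rfl⟩ := hrw.exists_parts
    rw [List.foldl_append, List.foldl_append, List.foldl_append, List.foldl_append,
      rule_id hr]
    rfl

theorem foldl_map (w : List Letter) (o : Option (List Bool)) :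
    (w.map (Symbol.terminal : Letter → Symbol Letter Unit)).foldl pf o = w.foldl push1 o := by
  induction w generalizing o with
  | nil => rfl
  | cons l w ih => rw [List.map_cons, List.foldl_cons, List.foldl_cons, ih]; rfl

theorem der_eps : gr.Derives [Symbol.nonterminal gr.initial] [] := by
  apply ContextFreeGrammar.Produces.single
  refine ⟨⟨(), []⟩, ?_, ?_⟩
  · exact (mem_rls _).2 (Or.inl rfl)
  · exact ContextFreeRule.Rewrites.input_output (r := (⟨(), []⟩ : ContextFreeRule Letter gr.NT))

theorem der_rhs (b : Bool) : gr.Derives [Symbol.nonterminal gr.initial] (rhs b) := by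
  apply ContextFreeGrammar.Produces.single
  refine ⟨⟨(), rhs b⟩, ?_, ?_⟩
  · cases b
    · exact (mem_rls _).2 (Or.inr (Or.inr rfl))
    · exact (mem_rls _).2 (Or.inr (Or.inl rfl))
  · exact ContextFreeRule.Rewrites.input_output (r := (⟨(), rhs b⟩ : ContextFreeRule Letter gr.NT))

theorem gen : ∀ (n : ℕ) (w : List Letter), w.length ≤ n → Dyck w →
    gr.Derives [Symbol.nonterminal gr.initial] (w.map Symbol.terminal) := by
  intro n
  induction n with
  | zero =>
    intro w hw _
    have : w = [] := List.length_eq_zero_iff.1 (by omega)
    subst this
    exact der_eps
  | succ n ih =>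
    intro w hw hd
    cases w with
    | nil => exact der_eps
    | cons l w =>
      obtain ⟨x, b⟩ := l
      unfold Dyck at hd
      rw [List.foldl_cons] at hd
      cases x with
      | false =>
        have h1 : push1 (some []) (false, b) = none := rfl
        rw [h1, foldl_none] at hd
        exact absurd hd (by simp)
      | true =>
        have h1 : push1 (some []) (true, b) = some ([] ++ [b]) := rfl
        rw [h1] at hd
        obtain ⟨w1, w2, rfl, h2, h3⟩ := split b w [] hd
        have hl : w1.length + (w2.length + 1) ≤ n := by
          simpa [List.length_append] using hw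
        have d1 := ih w1 (by omega) h2
        have d2 := ih w2 (by omega) h3
        have e1 : gr.Derives (rhs b) ([Symbol.terminal (true, b)] ++
            (w1.map Symbol.terminal ++ [Symbol.terminal (false, b), Symbol.nonterminal ()])) := by
          have := (d1.append_right [Symbol.terminal (false, b), Symbol.nonterminal ()]).append_left
            [Symbol.terminal (true, b)]
          exact this
        have e2 : gr.Derives ([Symbol.terminal (true, b)] ++
            (w1.map Symbol.terminal ++ [Symbol.terminal (false, b), Symbol.nonterminal ()]))
            ([Symbol.terminal (true, b)] ++ (w1.map Symbol.terminal ++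
              ([Symbol.terminal (false, b)] ++ w2.map Symbol.terminal))) := by
          have := ((d2.append_left [Symbol.terminal (false, b)]).append_left
            (w1.map Symbol.terminal)).append_left [Symbol.terminal (true, b)]
          exact this
        have e3 := ((der_rhs b).trans e1).trans e2
        have e4 : (((true, b) :: (w1 ++ (false, b) :: w2)).map Symbol.terminal :
            List (Symbol Letter gr.NT)) = [Symbol.terminal (true, b)] ++ (w1.map Symbol.terminal ++
              ([Symbol.terminal (false, b)] ++ w2.map Symbol.terminal)) := by
          simp
        rw [e4]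
        exact e3

theorem CFL : S_CFL := by
  refine ⟨gr, ?_⟩
  ext w
  rw [ContextFreeGrammar.mem_language_iff]
  constructor
  · intro h
    have h1 := derives_inv h (some [])
    rw [foldl_map] at h1
    exact h1
  · intro h
    exact gen w.length w le_rfl h

end Pool.Agent.H822R4.DK.TCFL
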