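import Pool.Agent.H822R4.DK.Defs

set_option autoImplicit false

namespace Pool.Agent.H822R4.DK.TCNT

open Pool.Agent.H822R4.DK

theorem CNT : S_CNT := by
  classical
  intro N m J _ U C _ Bad hU hinj hlt
  by_contra hcon
  push Not at hcon
  -- the bad assignments of `j`
  set A : J → Finset (Fin N → Bool) := fun j => Finset.univ.filter fun z => ∃ c, Bad j z c with hA
  have hcover : (Finset.univ : Finset (Fin N → Bool)) ⊆ Finset.univ.biUnion A := by
    intro z _
    obtain ⟨j, c, h⟩ := hcon z
    rw [Finset.mem_biUnion]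
    exact ⟨j, Finset.mem_univ _, by rw [hA]; simpa using ⟨c, h⟩⟩
  have hcardA : ∀ j, (A j).card ≤ Fintype.card C * 2 ^ (N - m) := by
    intro j
    have h1 : ∀ z : {z // z ∈ A j}, ∃ c, Bad j z.1 c := by
      rintro ⟨z, hz⟩
      rw [hA] at hz
      simpa using hz
    choose c hc using h1
    set F : {z // z ∈ A j} → C × ({i // i ∉ U j} → Bool) := fun z => (c z, fun i => z.1 i.1) with hF
    have hFinj : Function.Injective F := by
      intro z z' h
      rw [hF] at h
      simp only [Prod.mk.injEq] at h
      obtain ⟨h2, h3⟩ := h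
      apply Subtype.ext
      refine hinj j z.1 z'.1 (c z) (hc z) ?_ ?_
      · rw [h2]
        exact hc z'
      · intro i hi
        exact congrFun h3 ⟨i, hi⟩
    have h2 := Fintype.card_le_of_injective F hFinj
    have h3 : Fintype.card {i // i ∉ U j} = N - m := by
      rw [Fintype.card_subtype_compl]
      simp [hU j]
    rw [Fintype.card_coe, Fintype.card_prod, Fintype.card_fun, h3, Fintype.card_bool] at h2
    exact h2
  have h1 : 2 ^ N ≤ Fintype.card J * (Fintype.card C * 2 ^ (N - m)) := by
    calc 2 ^ N = (Finset.univ : Finset (Fin N → Bool)).card := by simp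
      _ ≤ (Finset.univ.biUnion A).card := Finset.card_le_card hcover
      _ ≤ ∑ j, (A j).card := Finset.card_biUnion_le
      _ ≤ ∑ _j : J, Fintype.card C * 2 ^ (N - m) := Finset.sum_le_sum fun j _ => hcardA j
      _ = _ := by rw [Finset.sum_const, Finset.card_univ, smul_eq_mul]
  have hJ : Nonempty J := by
    obtain ⟨j, -⟩ := hcon (fun _ => false)
    exact ⟨j⟩
  obtain ⟨j0⟩ := hJ
  have hmN : m ≤ N := by
    have := Finset.card_le_univ (U j0)
    rw [hU j0, Fintype.card_fin] at this
    exact this
  have h2 : 2 ^ N = 2 ^ m * 2 ^ (N - m) := by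
    rw [← pow_add]
    congr 1
    omega
  rw [h2, ← mul_assoc] at h1
  have h3 : 0 < 2 ^ (N - m) := by positivity
  have h4 := Nat.le_of_mul_le_mul_right h1 h3
  omega

end Pool.Agent.H822R4.DK.TCNT
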