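import Pool.Agent.H822R4.DK.Defs

/-!
# CORE: assembly of the combinatorial bound
-/

set_option autoImplicit false

namespace Pool.Agent.H822R4.DK.TCORE

open Pool.Agent.H822R4.DK

theorem speed {k : ℕ} {Mem : Type} {M : Machine k Mem} {x : ℕ → Sym} {B t : ℕ}
    {f : ℕ → Config k Mem} (hf : IsRun M x B t f) :
    ∀ s, s < t → ∀ i, |(((f (s + 1)).2 i : ℕ) : ℤ) - (f s).2 i| ≤ 1 := by
  intro s hs i
  obtain ⟨d, -, hd⟩ := hf.2.1 s hs
  obtain ⟨h1, h2, -⟩ := hd i
  rw [h2, add_sub_cancel_left]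
  exact h1

theorem dist {k : ℕ} {Mem : Type} {t : ℕ} {f : ℕ → Config k Mem}
    (hsp : ∀ s, s < t → ∀ i, |(((f (s + 1)).2 i : ℕ) : ℤ) - (f s).2 i| ≤ 1) (i : Fin k) (s : ℕ) :
    ∀ d, s + d ≤ t → |(((f (s + d)).2 i : ℕ) : ℤ) - (f s).2 i| ≤ d := by
  intro d
  induction d with
  | zero => simp
  | succ d ih =>
    intro h
    have h1 := ih (by omega)
    have h2 := hsp (s + d) (by omega) i
    rw [← add_assoc]
    push_cast
    rw [abs_le] at h1 h2 ⊢
    constructor <;> linarith [h1.1, h1.2, h2.1, h2.2]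

theorem moves {k : ℕ} {Mem : Type} (hN3 : S_N3) (f : ℕ → Config k Mem) (t lam h : ℕ) :
    ∑ v ∈ nodes lam h 1, ((mv f t v.2 (bl lam v.1)).card +
      (mv f t (bet lam v) (bl lam v.1)).card) ≤ k * t := by
  classical
  have hmem : ∀ a l, ∀ q ∈ mv f t a l, (f q.1).2 q.2 ∈ Finset.Ico a (a + l) := by
    intro a l q hq
    unfold mv at hq
    rw [Finset.mem_filter] at hq
    exact hq.2.2.1
  have hd1 : ∀ v ∈ nodes lam h 1, Disjoint (mv f t v.2 (bl lam v.1))
      (mv f t (bet lam v) (bl lam v.1)) := by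
    intro v hv
    rw [Finset.disjoint_left]
    intro q hq hq'
    exact Finset.disjoint_left.1 (hN3 lam h 1 v hv v hv).1 (hmem _ _ q hq) (hmem _ _ q hq')
  have hpd : (nodes lam h 1 : Set (ℕ × ℕ)).PairwiseDisjoint
      (fun v => mv f t v.2 (bl lam v.1) ∪ mv f t (bet lam v) (bl lam v.1)) := by
    intro v hv v' hv' hne
    rw [Function.onFun, Finset.disjoint_left]
    intro q hq hq'
    rw [Finset.mem_union] at hq hq'
    have hv1 : v ∈ nodes lam h 1 := hv
    have hv1' : v' ∈ nodes lam h 1 := hv'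
    have h1 := hN3 lam h 1 v hv1 v' hv1'
    have h2 := hN3 lam h 1 v' hv1' v hv1
    rcases hq with hq | hq <;> rcases hq' with hq' | hq'
    · exact Finset.disjoint_left.1 (h1.2.1 hne) (hmem _ _ q hq) (hmem _ _ q hq')
    · exact Finset.disjoint_left.1 h1.1 (hmem _ _ q hq) (hmem _ _ q hq')
    · exact Finset.disjoint_left.1 h2.1 (hmem _ _ q hq') (hmem _ _ q hq)
    · exact Finset.disjoint_left.1 (h1.2.2 hne) (hmem _ _ q hq) (hmem _ _ q hq')
  calc ∑ v ∈ nodes lam h 1, ((mv f t v.2 (bl lam v.1)).card +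
        (mv f t (bet lam v) (bl lam v.1)).card)
      = ∑ v ∈ nodes lam h 1, (mv f t v.2 (bl lam v.1) ∪ mv f t (bet lam v) (bl lam v.1)).card :=
        Finset.sum_congr rfl fun v hv => (Finset.card_union_of_disjoint (hd1 v hv)).symm
    _ = ((nodes lam h 1).biUnion fun v =>
        mv f t v.2 (bl lam v.1) ∪ mv f t (bet lam v) (bl lam v.1)).card :=
        (Finset.card_biUnion hpd).symm
    _ ≤ (Finset.range t ×ˢ (Finset.univ : Finset (Fin k))).card := by
        refine Finset.card_le_card (Finset.biUnion_subset.2 fun v _ =>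
          Finset.union_subset ?_ ?_)
        · exact Finset.filter_subset _ _
        · exact Finset.filter_subset _ _
    _ = k * t := by
        rw [Finset.card_product, Finset.card_range, Finset.card_univ, Fintype.card_fin, mul_comm]

theorem wt_le (hN1 : S_N1) {lam h : ℕ} {v : ℕ × ℕ} (hv : v ∈ nodes lam h 1) :
    wt lam v ≤ len lam h := by
  have h1 := (hN1 lam h 1 v hv).1
  have h2 : bl lam v.1 ≤ lam * 2 ^ h :=
    Nat.mul_le_mul_left _ (Nat.pow_le_pow_right (by norm_num) h1)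
  calc wt lam v ≤ v.1 * bl lam v.1 := Nat.div_le_self _ _
    _ ≤ h * (lam * 2 ^ h) := Nat.mul_le_mul h1 h2
    _ ≤ 2 * lam * 2 ^ h * (h + 1) := by nlinarith [Nat.zero_le (lam * 2 ^ h), Nat.zero_le (h * (lam * 2 ^ h))]
    _ = len lam h := rfl

theorem visits {k : ℕ} {Mem : Type} (hTRV : S_TRV) (hN1 : S_N1) (hN2 : S_N2)
    {f : ℕ → Config k Mem} {t lam h : ℕ}
    (hsp : ∀ s, s < t → ∀ i, |(((f (s + 1)).2 i : ℕ) : ℤ) - (f s).2 i| ≤ 1)
    (a b : Fin k) (V : Finset (ℕ × ℕ))
    (hV : ∀ v ∈ V, v ∈ nodes lam h 1 ∧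
      ∃ s ≤ t, (f s).2 a ∈ uB lam v ∧ (f s).2 b ∈ vB lam v) :
    ∑ v ∈ V, wt lam v ≤ t + len lam h := by
  classical
  have hex : ∀ v : ℕ × ℕ, ∃ s : ℕ, v ∈ V → s ≤ t ∧ (f s).2 a ∈ uB lam v ∧ (f s).2 b ∈ vB lam v := by
    intro v
    by_cases hv : v ∈ V
    · obtain ⟨s, hs⟩ := (hV v hv).2
      exact ⟨s, fun _ => hs⟩
    · exact ⟨0, fun h => absurd h hv⟩
  choose s hs using hex
  refine hTRV (ℕ × ℕ) V (wt lam) s t (len lam h) ?_ ?_
  · intro v hv
    exact ⟨(hs v hv).1, wt_le hN1 (hV v hv).1⟩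
  · intro v hv v' hv' hne hle
    obtain ⟨t1, x1, y1⟩ := hs v hv
    obtain ⟨t2, x2, y2⟩ := hs v' hv'
    obtain ⟨d, hd⟩ := Nat.exists_eq_add_of_le hle
    have da := dist hsp a (s v) d (by omega)
    have db := dist hsp b (s v) d (by omega)
    rw [← hd] at da db
    rw [abs_le] at da db
    have key := hN2 lam h 1 v (hV v hv).1 v' (hV v' hv').1 hne _ x1 _ y1 _ x2 _ y2
    rcases key with (h1 | h1) | (h1 | h1)
    · omega
    · omega
    · omega
    · omega

theorem CORE (hEXT : S_EXT) (hGOOD : S_GOOD) (hTRV : S_TRV) (hCRS : S_CRS) (hN1 : S_N1)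
    (hN2 : S_N2) (hN3 : S_N3) (hN4 : S_N4) (hW1 : S_W1) : S_CORE := by
  classical
  intro k Mem _ M lam h r m E hm hlam hacc hcount
  obtain ⟨z, hz⟩ := hGOOD k Mem M lam h r m E (by omega) (by omega)
    (fun w hw hex => (hacc w hw).1 hex) hcount
  obtain ⟨hlen, hdyck⟩ := hW1 lam h r z z
  refine ⟨full lam h r z z, hlen, hdyck, ?_⟩
  rintro t ⟨f, hf⟩
  rw [hlen] at hf
  have hsp := speed hf
  -- visited nodes
  obtain ⟨Vis, hVis⟩ : ∃ Vis : ℕ × ℕ → Fin k → Fin k → Prop, Vis = fun v a b =>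
      ∃ s ≤ t, (f s).2 a ∈ uB lam v ∧ (f s).2 b ∈ vB lam v := ⟨_, rfl⟩
  obtain ⟨Vi, hVi⟩ : ∃ Vi : ℕ × ℕ → Prop, Vi = fun v => ∃ a b, Vis v a b := ⟨_, rfl⟩
  have hbl : ∀ v : ℕ × ℕ, lam ≤ bl lam v.1 := by
    intro v
    exact Nat.le_mul_of_pos_right _ (Nat.pow_pos (by norm_num))
  -- (1)
  have step1 : ∀ v ∈ nodes lam h 1, ¬ Vi v → (E + 1) * bl lam v.1 ≤
      4 * ((mv f t v.2 (bl lam v.1)).card + (mv f t (bet lam v) (bl lam v.1)).card) := by
    intro v hv hnv
    have hl := hbl v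
    have h1 := hCRS k Mem f t v.2 (bet lam v) (bl lam v.1) m E hsp (by omega) (by
      intro p hp1 hp2
      by_contra hcon
      push Not at hcon
      have hst : ∀ s, s ≤ t → st (Ub m v p) (Vb lam m v p) (f s) ≠ 3 := by
        intro s hs h3
        have hoo : occ (Ub m v p) (f s) ∧ occ (Vb lam m v p) (f s) := by
          unfold st at h3
          split_ifs at h3 with h4 h5 h5
          · exact ⟨h4, h5⟩
          all_goals omega
        obtain ⟨⟨a, ha⟩, ⟨b, hb⟩⟩ := hoo
        apply hnv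
        rw [hVi, hVis]
        refine ⟨a, b, s, hs, ?_, ?_⟩
        · unfold Ub at ha
          unfold uB
          rw [Finset.mem_Ico] at ha ⊢
          omega
        · unfold Vb at hb
          unfold vB
          rw [Finset.mem_Ico] at hb ⊢
          omega
      obtain ⟨C, hC⟩ := hEXT k Mem M _ _ t E (Ub m v p) (Vb lam m v p) f hf hst hcon
      exact hz v hv p (by omega) C hC)
    have h2 : bl lam v.1 ≤ 2 * (bl lam v.1 - m - 1) := by omega
    calc (E + 1) * bl lam v.1 ≤ (E + 1) * (2 * (bl lam v.1 - m - 1)) := Nat.mul_le_mul_left _ h2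
      _ = 2 * ((bl lam v.1 - m - 1) * (E + 1)) := by ring
      _ ≤ 2 * (2 * ((mv f t v.2 (bl lam v.1)).card + (mv f t (bet lam v) (bl lam v.1)).card)) :=
          Nat.mul_le_mul_left _ h1
      _ = _ := by ring
  -- (2)
  have step2 : (E + 1) * ∑ v ∈ (nodes lam h 1).filter (fun v => ¬ Vi v), bl lam v.1 ≤
      4 * (k * t) := by
    rw [Finset.mul_sum]
    calc ∑ v ∈ (nodes lam h 1).filter (fun v => ¬ Vi v), (E + 1) * bl lam v.1
        ≤ ∑ v ∈ (nodes lam h 1).filter (fun v => ¬ Vi v),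
          4 * ((mv f t v.2 (bl lam v.1)).card + (mv f t (bet lam v) (bl lam v.1)).card) := by
          refine Finset.sum_le_sum fun v hv => ?_
          rw [Finset.mem_filter] at hv
          exact step1 v hv.1 hv.2
      _ ≤ ∑ v ∈ nodes lam h 1,
          4 * ((mv f t v.2 (bl lam v.1)).card + (mv f t (bet lam v) (bl lam v.1)).card) :=
          Finset.sum_le_sum_of_subset (Finset.filter_subset _ _)
      _ = 4 * ∑ v ∈ nodes lam h 1,
          ((mv f t v.2 (bl lam v.1)).card + (mv f t (bet lam v) (bl lam v.1)).card) := by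
          rw [Finset.mul_sum]
      _ ≤ 4 * (k * t) := Nat.mul_le_mul_left _ (moves hN3 f t lam h)
  -- (3)
  have step3 : ∑ v ∈ (nodes lam h 1).filter (fun v => Vi v), wt lam v ≤
      k ^ 2 * (t + len lam h) := by
    calc ∑ v ∈ (nodes lam h 1).filter (fun v => Vi v), wt lam v
        ≤ ∑ v ∈ (nodes lam h 1).filter (fun v => Vi v),
          ∑ q : Fin k × Fin k, if Vis v q.1 q.2 then wt lam v else 0 := by
          refine Finset.sum_le_sum fun v hv => ?_
          rw [Finset.mem_filter, hVi] at hv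
          obtain ⟨a, b, hab⟩ := hv.2
          have h1 := Finset.single_le_sum
            (f := fun q : Fin k × Fin k => if Vis v q.1 q.2 then wt lam v else 0)
            (fun _ _ => Nat.zero_le _) (Finset.mem_univ (a, b))
          simp only [hab, if_true] at h1
          exact h1
      _ ≤ ∑ v ∈ nodes lam h 1,
          ∑ q : Fin k × Fin k, if Vis v q.1 q.2 then wt lam v else 0 :=
          Finset.sum_le_sum_of_subset (Finset.filter_subset _ _)
      _ = ∑ q : Fin k × Fin k, ∑ v ∈ (nodes lam h 1).filter (fun v => Vis v q.1 q.2),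
          wt lam v := by
          rw [Finset.sum_comm]
          exact Finset.sum_congr rfl fun q _ => (Finset.sum_filter _ _).symm
      _ ≤ ∑ _q : Fin k × Fin k, (t + len lam h) := by
          refine Finset.sum_le_sum fun q _ => ?_
          refine visits hTRV hN1 hN2 hsp q.1 q.2 _ ?_
          intro v hv
          rw [Finset.mem_filter, hVis] at hv
          exact hv
      _ = k ^ 2 * (t + len lam h) := by
          rw [Finset.sum_const, Finset.card_univ, Fintype.card_prod, Fintype.card_fin,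
            smul_eq_mul, sq]
  -- (4)
  by_cases hcase : (E + 1) * len lam h ≤ 64 * k * t
  · exact Or.inr hcase
  left
  push Not at hcase
  have hunv : 16 * ∑ v ∈ (nodes lam h 1).filter (fun v => ¬ Vi v), bl lam v.1 < len lam h := by
    by_contra hcon
    push Not at hcon
    have h1 := Nat.mul_le_mul_left (E + 1) hcon
    have h2 : (E + 1) * (16 * ∑ v ∈ (nodes lam h 1).filter (fun v => ¬ Vi v), bl lam v.1) =
        16 * ((E + 1) * ∑ v ∈ (nodes lam h 1).filter (fun v => ¬ Vi v), bl lam v.1) := by ring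
    rw [h2] at h1
    have h3 : 64 * k * t = 16 * (4 * (k * t)) := by ring
    omega
  obtain ⟨hN4a, -⟩ := hN4 lam h 1 ((h + 1) / 2) (by omega) (by omega)
  have hbig : len lam h ≤ 4 * ∑ v ∈ (nodes lam h 1).filter (fun v => (h + 1) / 2 ≤ v.1),
      bl lam v.1 := by
    rw [hN4a]
    unfold len
    have h1 : h + 1 ≤ 2 * (h + 1 - (h + 1) / 2) := by omega
    calc 2 * lam * 2 ^ h * (h + 1) ≤ 2 * lam * 2 ^ h * (2 * (h + 1 - (h + 1) / 2)) :=
          Nat.mul_le_mul_left _ h1
      _ = _ := by ring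
  have hsplit : ∑ v ∈ (nodes lam h 1).filter (fun v => (h + 1) / 2 ≤ v.1), bl lam v.1 ≤
      ∑ v ∈ (nodes lam h 1).filter (fun v => Vi v ∧ (h + 1) / 2 ≤ v.1), bl lam v.1 +
      ∑ v ∈ (nodes lam h 1).filter (fun v => ¬ Vi v), bl lam v.1 := by
    rw [← Finset.sum_filter_add_sum_filter_not
      ((nodes lam h 1).filter (fun v => (h + 1) / 2 ≤ v.1)) (fun v => Vi v)]
    refine Nat.add_le_add (Finset.sum_le_sum_of_subset ?_) (Finset.sum_le_sum_of_subset ?_)
    · intro v hv
      simp only [Finset.mem_filter] at hv ⊢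
      exact ⟨hv.1.1, hv.2, hv.1.2⟩
    · intro v hv
      simp only [Finset.mem_filter] at hv ⊢
      exact ⟨hv.1.1, hv.2⟩
  have hwt : h * ∑ v ∈ (nodes lam h 1).filter (fun v => Vi v ∧ (h + 1) / 2 ≤ v.1), bl lam v.1 ≤
      4 * ∑ v ∈ (nodes lam h 1).filter (fun v => Vi v), wt lam v := by
    rw [Finset.mul_sum]
    calc ∑ v ∈ (nodes lam h 1).filter (fun v => Vi v ∧ (h + 1) / 2 ≤ v.1), h * bl lam v.1
        ≤ ∑ v ∈ (nodes lam h 1).filter (fun v => Vi v ∧ (h + 1) / 2 ≤ v.1), 4 * wt lam v := by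
          refine Finset.sum_le_sum fun v hv => ?_
          rw [Finset.mem_filter] at hv
          have hv2 := hv.2.2
          rcases Nat.eq_zero_or_pos v.1 with h0 | h0
          · have : h = 0 := by omega
            rw [this, zero_mul]
            exact Nat.zero_le _
          · obtain ⟨i, hi⟩ : ∃ i, v.1 = i + 1 := ⟨v.1 - 1, by omega⟩
            have h3 : v.1 * bl lam v.1 = 2 * (v.1 * (lam * 2 ^ i)) := by
              rw [hi]
              unfold bl
              rw [pow_succ]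
              ring
            have h4 : 2 * wt lam v = v.1 * bl lam v.1 := by
              unfold wt
              rw [h3, Nat.mul_div_cancel_left _ (by norm_num)]
            calc h * bl lam v.1 ≤ (2 * v.1) * bl lam v.1 := Nat.mul_le_mul_right _ (by omega)
              _ = 2 * (v.1 * bl lam v.1) := by ring
              _ = 4 * wt lam v := by rw [← h4]; ring
      _ ≤ ∑ v ∈ (nodes lam h 1).filter (fun v => Vi v), 4 * wt lam v := by
          refine Finset.sum_le_sum_of_subset ?_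
          intro v hv
          rw [Finset.mem_filter] at hv ⊢
          exact ⟨hv.1, hv.2.1⟩
      _ = _ := by rw [Finset.mul_sum]
  have h3L : len lam h ≤
      16 * ∑ v ∈ (nodes lam h 1).filter (fun v => Vi v ∧ (h + 1) / 2 ≤ v.1), bl lam v.1 := by
    omega
  calc h * len lam h ≤ h * (16 * ∑ v ∈ (nodes lam h 1).filter
        (fun v => Vi v ∧ (h + 1) / 2 ≤ v.1), bl lam v.1) := Nat.mul_le_mul_left _ h3L
    _ = 16 * (h * ∑ v ∈ (nodes lam h 1).filter
        (fun v => Vi v ∧ (h + 1) / 2 ≤ v.1), bl lam v.1) := by ring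
    _ ≤ 16 * (4 * ∑ v ∈ (nodes lam h 1).filter (fun v => Vi v), wt lam v) :=
        Nat.mul_le_mul_left _ hwt
    _ ≤ 16 * (4 * (k ^ 2 * (t + len lam h))) :=
        Nat.mul_le_mul_left _ (Nat.mul_le_mul_left _ step3)
    _ = 64 * k ^ 2 * (t + len lam h) := by ring

end Pool.Agent.H822R4.DK.TCORE
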