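import Pool.Agent.H822R4.DK.Defs

set_option autoImplicit false

namespace Pool.Agent.H822R4.DK.TCRS

open Pool.Agent.H822R4.DK

theorem st_eq {k : ℕ} {Mem : Type} (U V : Finset ℕ) (c c' : Config k Mem)
    (h : ∀ i, (c.2 i ∈ U ↔ c'.2 i ∈ U) ∧ (c.2 i ∈ V ↔ c'.2 i ∈ V)) : st U V c = st U V c' := by
  have h1 : occ U c ↔ occ U c' := by
    unfold occ
    exact exists_congr fun i => (h i).1
  have h2 : occ V c ↔ occ V c' := by
    unfold occ
    exact exists_congr fun i => (h i).2
  unfold st
  by_cases a : occ U c
  · have a' := h1.1 a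
    by_cases b : occ V c
    · have b' := h2.1 b
      simp only [a, a', b, b', if_true]
    · have b' : ¬ occ V c' := fun x => b (h2.2 x)
      simp only [a, a', b, b', if_true, if_false]
  · have a' : ¬ occ U c' := fun x => a (h1.2 x)
    by_cases b : occ V c
    · have b' := h2.1 b
      simp only [a, a', b, b', if_true, if_false]
    · have b' : ¬ occ V c' := fun x => b (h2.2 x)
      simp only [a, a', b, b', if_false]

/-- change of membership in an interval. -/
theorem cross (x y c m : ℕ) (h1 : |(y : ℤ) - x| ≤ 1)
    (h : ¬ (x ∈ Finset.Ico c (c + m) ↔ y ∈ Finset.Ico c (c + m))) :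
    x ≠ y ∧ max x y = min x y + 1 ∧ (min x y + 1 = c ∨ min x y + 1 = c + m) := by
  rw [abs_le] at h1
  simp only [Finset.mem_Ico] at h
  rcases lt_trichotomy x y with hxy | hxy | hxy
  · have : y = x + 1 := by omega
    subst this
    have e1 : min x (x + 1) = x := by omega
    have e2 : max x (x + 1) = x + 1 := by omega
    rw [e1, e2]
    refine ⟨by omega, rfl, ?_⟩
    by_contra hh
    push Not at hh
    apply h
    constructor
    · intro _; omega
    · intro _; omega
  · exact absurd (by rw [hxy]) h
  · have : x = y + 1 := by omega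
    subst this
    have e1 : min (y + 1) y = y := by omega
    have e2 : max (y + 1) y = y + 1 := by omega
    rw [e1, e2]
    refine ⟨by omega, rfl, ?_⟩
    by_contra hh
    push Not at hh
    apply h
    constructor
    · intro _; omega
    · intro _; omega

/-- offset of a crossing, opening block. -/
def g1 {k : ℕ} {Mem : Type} (f : ℕ → Config k Mem) (α m : ℕ) (q : (ℕ × Fin k) × Bool) :
    (Σ _ : ℕ, ℕ) :=
  ⟨if q.2 then min ((f q.1.1).2 q.1.2) ((f (q.1.1 + 1)).2 q.1.2) + 1 - α
    else min ((f q.1.1).2 q.1.2) ((f (q.1.1 + 1)).2 q.1.2) + 1 - α - m, q.1.1⟩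

/-- offset of a crossing, closing block. -/
def g2 {k : ℕ} {Mem : Type} (f : ℕ → Config k Mem) (β l m : ℕ) (q : (ℕ × Fin k) × Bool) :
    (Σ _ : ℕ, ℕ) :=
  ⟨if q.2 then β + l - (min ((f q.1.1).2 q.1.2) ((f (q.1.1 + 1)).2 q.1.2) + 1)
    else β + l - m - (min ((f q.1.1).2 q.1.2) ((f (q.1.1 + 1)).2 q.1.2) + 1), q.1.1⟩

theorem CRS : S_CRS := by
  intro k Mem f t α β l m E hstep hml hE
  classical
  set S : Finset (Σ _ : ℕ, ℕ) := (Finset.Ico 1 (l - m)).sigma fun p =>
    (Finset.range t).filter fun s =>
      st (Finset.Ico (α + p) (α + p + m)) (Finset.Ico (β + l - p - m) (β + l - p)) (f s) ≠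
      st (Finset.Ico (α + p) (α + p + m)) (Finset.Ico (β + l - p - m) (β + l - p)) (f (s + 1))
    with hS
  have hsub : S ⊆ ((mv f t α l) ×ˢ (Finset.univ : Finset Bool)).image (g1 f α m) ∪
      ((mv f t β l) ×ˢ (Finset.univ : Finset Bool)).image (g2 f β l m) := by
    rintro ⟨p, s⟩ hps
    rw [hS, Finset.mem_sigma] at hps
    obtain ⟨hp, hs⟩ := hps
    simp only [Finset.mem_Ico] at hp
    rw [Finset.mem_filter, Finset.mem_range] at hs
    simp only at hs
    obtain ⟨hst, hne⟩ := hs
    have hex : ∃ i, ¬ (((f s).2 i ∈ Finset.Ico (α + p) (α + p + m) ↔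
        (f (s + 1)).2 i ∈ Finset.Ico (α + p) (α + p + m)) ∧
        ((f s).2 i ∈ Finset.Ico (β + l - p - m) (β + l - p) ↔
          (f (s + 1)).2 i ∈ Finset.Ico (β + l - p - m) (β + l - p))) := by
      by_contra hcon
      push Not at hcon
      apply hne
      apply st_eq
      intro i
      exact hcon i
    obtain ⟨i, hi⟩ := hex
    have hmove := hstep s hst i
    rw [Finset.mem_union]
    by_cases hU : ((f s).2 i ∈ Finset.Ico (α + p) (α + p + m) ↔
        (f (s + 1)).2 i ∈ Finset.Ico (α + p) (α + p + m))
    · have hV : ¬ ((f s).2 i ∈ Finset.Ico (β + l - p - m) (β + l - p) ↔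
          (f (s + 1)).2 i ∈ Finset.Ico (β + l - p - m) (β + l - p)) := fun h => hi ⟨hU, h⟩
      right
      have e0 : β + l - p = (β + l - p - m) + m := by omega
      rw [e0] at hV
      have e1 : β + l - p - m + m - m = β + l - p - m := by omega
      have hc := cross _ _ (β + l - p - m) m hmove (by rwa [e1] at hV)
      obtain ⟨c1, c2, c3⟩ := hc
      rw [Finset.mem_image]
      have hmv : ((s, i) : ℕ × Fin k) ∈ mv f t β l := by
        unfold mv
        simp only [Finset.mem_filter, Finset.mem_product, Finset.mem_range, Finset.mem_univ,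
          and_true, Finset.mem_Ico]
        refine ⟨hst, c1, ?_, ?_⟩
        · rcases c3 with c3 | c3 <;> omega
        · rcases c3 with c3 | c3 <;> omega
      rcases c3 with c3 | c3
      · refine ⟨((s, i), false), ?_, ?_⟩
        · rw [Finset.mem_product]; exact ⟨hmv, Finset.mem_univ _⟩
        · unfold g2
          simp only [Bool.false_eq_true, if_false]
          rw [c3]
          congr 1
          omega
      · refine ⟨((s, i), true), ?_, ?_⟩
        · rw [Finset.mem_product]; exact ⟨hmv, Finset.mem_univ _⟩
        · unfold g2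
          simp only [if_true]
          rw [c3]
          congr 1
          omega
    · left
      have hc := cross _ _ (α + p) m hmove hU
      obtain ⟨c1, c2, c3⟩ := hc
      rw [Finset.mem_image]
      have hmv : ((s, i) : ℕ × Fin k) ∈ mv f t α l := by
        unfold mv
        simp only [Finset.mem_filter, Finset.mem_product, Finset.mem_range, Finset.mem_univ,
          and_true, Finset.mem_Ico]
        refine ⟨hst, c1, ?_, ?_⟩
        · rcases c3 with c3 | c3 <;> omega
        · rcases c3 with c3 | c3 <;> omega
      rcases c3 with c3 | c3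
      · refine ⟨((s, i), true), ?_, ?_⟩
        · rw [Finset.mem_product]; exact ⟨hmv, Finset.mem_univ _⟩
        · unfold g1
          simp only [if_true]
          rw [c3]
          congr 1
          omega
      · refine ⟨((s, i), false), ?_, ?_⟩
        · rw [Finset.mem_product]; exact ⟨hmv, Finset.mem_univ _⟩
        · unfold g1
          simp only [Bool.false_eq_true, if_false]
          rw [c3]
          congr 1
          omega
  have hcard : S.card ≤ 2 * ((mv f t α l).card + (mv f t β l).card) := by
    refine (Finset.card_le_card hsub).trans ((Finset.card_union_le _ _).trans ?_)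
    have h1 := Finset.card_image_le (s := (mv f t α l) ×ˢ (Finset.univ : Finset Bool))
      (f := g1 f α m)
    have h2 := Finset.card_image_le (s := (mv f t β l) ×ˢ (Finset.univ : Finset Bool))
      (f := g2 f β l m)
    rw [Finset.card_product, Finset.card_univ, Fintype.card_bool] at h1 h2
    omega
  have hlow : (l - m - 1) * (E + 1) ≤ S.card := by
    rw [hS, Finset.card_sigma]
    have hc : (Finset.Ico 1 (l - m)).card = l - m - 1 := by simp
    rw [← hc, ← smul_eq_mul]
    apply Finset.card_nsmul_le_sum
    intro p hp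
    rw [Finset.mem_Ico] at hp
    exact hE p hp.1 (by omega)
  exact hlow.trans hcard

end Pool.Agent.H822R4.DK.TCRS
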