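import Mathlib

/-!
# The Dyck language on machines with several two-way input heads (helper822)

Definitions for: the Dyck language with two types of brackets needs time of order `n log n` on
nondeterministic machines with `k` two-way input heads and `n^(1-δ)` bits of memory.
-/

set_option autoImplicit false

namespace Pool.Agent.H822R4.DK

/-- Letters: `(true, b)` is the opening bracket of type `b`, `(false, b)` the closing one. -/
abbrev Letter := Bool × Bool

/-- One step of the pushdown automaton: an opening bracket is pushed, a closing bracket pops the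
top of the stack, which must have the same type. -/
def push1 (s : Option (List Bool)) (l : Letter) : Option (List Bool) :=
  match s, l with
  | some st, (true, b) => some (b :: st)
  | some (c :: st), (false, b) => if c = b then some st else none
  | some [], (false, _) => none
  | none, _ => none

/-- The Dyck language with two types of brackets, as the set of words accepted by the one-way
real-time deterministic pushdown automaton `push1`. -/
def Dyck (w : List Letter) : Prop := w.foldl push1 (some []) = some []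

/-- Symbols on the input tape. -/
inductive Sym
  | lmark : Sym
  | rmark : Sym
  | ltr : Letter → Sym

/-- The input tape: the word occupies the cells `1, …, n`, between the two endmarkers. -/
def cell (w : List Letter) (p : ℕ) : Sym :=
  if p = 0 then Sym.lmark else
    match w[p - 1]? with
    | some l => Sym.ltr l
    | none => Sym.rmark

/-- A nondeterministic machine with `k` two-way read-only input heads and memory `Mem`. -/
structure Machine (k : ℕ) (Mem : Type) where
  /-- initial content of the memory -/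
  start : Mem
  /-- accepting contents of the memory -/
  acc : Set Mem
  /-- `trans m s m' d`: with memory content `m` and scanned symbols `s` the machine may change
  the memory content to `m'` and move head `i` by `d i` -/
  trans : Mem → (Fin k → Sym) → Mem → (Fin k → ℤ) → Prop

/-- Configurations: content of the memory and positions of the heads. -/
abbrev Config (k : ℕ) (Mem : Type) := Mem × (Fin k → ℕ)

/-- One step on the tape `x`; the heads stay in the cells `0, …, B`. -/
def Step {k : ℕ} {Mem : Type} (M : Machine k Mem) (x : ℕ → Sym) (B : ℕ)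
    (c c' : Config k Mem) : Prop :=
  ∃ d : Fin k → ℤ, M.trans c.1 (fun i => x (c.2 i)) c'.1 d ∧
    ∀ i, |d i| ≤ 1 ∧ (c'.2 i : ℤ) = c.2 i + d i ∧ c'.2 i ≤ B

/-- `f 0, …, f t` is an accepting computation on the tape `x`. -/
def IsRun {k : ℕ} {Mem : Type} (M : Machine k Mem) (x : ℕ → Sym) (B t : ℕ)
    (f : ℕ → Config k Mem) : Prop :=
  f 0 = (M.start, fun _ => 0) ∧ (∀ s, s < t → Step M x B (f s) (f (s + 1))) ∧ (f t).1 ∈ M.acc

/-- `M` has an accepting computation with `t` steps on the word `w`. -/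
def AcceptsIn {k : ℕ} {Mem : Type} (M : Machine k Mem) (w : List Letter) (t : ℕ) : Prop :=
  ∃ f, IsRun M (cell w) (w.length + 1) t f

/-! ### Status of a configuration with respect to two sets of cells -/

/-- Some head is in `U`. -/
def occ {k : ℕ} {Mem : Type} (U : Finset ℕ) (c : Config k Mem) : Prop := ∃ i, c.2 i ∈ U

instance {k : ℕ} {Mem : Type} (U : Finset ℕ) (c : Config k Mem) : Decidable (occ U c) := by
  unfold occ; infer_instance

/-- status: 0 no head in `U ∪ V`; 1: heads in `U` only; 2: heads in `V` only; 3: both. -/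
def st {k : ℕ} {Mem : Type} (U V : Finset ℕ) (c : Config k Mem) : ℕ :=
  if occ U c then (if occ V c then 3 else 1) else (if occ V c then 2 else 0)

/-- `c'` is reachable from `c` by steps all of which start in a configuration of status `a`. -/
def Seg {k : ℕ} {Mem : Type} (M : Machine k Mem) (x : ℕ → Sym) (B : ℕ) (U V : Finset ℕ) (a : ℕ)
    (c c' : Config k Mem) : Prop :=
  Relation.ReflTransGen (fun c c' => Step M x B c c' ∧ st U V c = a) c c'

/-- codes of chains -/
abbrev Code (k : ℕ) (Mem : Type) (B E : ℕ) :=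
  (Fin (E + 2) → Mem × (Fin k → Fin (B + 1))) × (Fin (E + 1) → Fin 3)

/-- the configuration of a bounded one -/
def toC {k : ℕ} {Mem : Type} {B : ℕ} (c : Mem × (Fin k → Fin (B + 1))) : Config k Mem :=
  (c.1, fun i => (c.2 i : ℕ))

/-- The code describes an accepting computation on `x` in which the status (with respect to `U`,
`V`) is never 3 and changes at most `E` times. -/
def Chain {k : ℕ} {Mem : Type} (M : Machine k Mem) (x : ℕ → Sym) (B : ℕ) (U V : Finset ℕ) (E : ℕ)
    (C : Code k Mem B E) : Prop :=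
  toC (C.1 0) = (M.start, fun _ => 0) ∧ (C.1 (Fin.last (E + 1))).1 ∈ M.acc ∧
    ∀ i : Fin (E + 1), Seg M x B U V (C.2 i : ℕ) (toC (C.1 i.castSucc)) (toC (C.1 i.succ))

/-! ### The tree -/

/-- length of the bracket blocks of a node of height `i` -/
def bl (lam i : ℕ) : ℕ := lam * 2 ^ i

/-- length of the word of a tree of height `i` -/
def len (lam i : ℕ) : ℕ := 2 * lam * 2 ^ i * (i + 1)

/-- `nodes lam h a`: the nodes (height, first cell) of the tree of height `h` whose word starts in
the cell `a`. -/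
def nodes (lam : ℕ) : ℕ → ℕ → Finset (ℕ × ℕ)
  | 0, a => {(0, a)}
  | h + 1, a => insert (h + 1, a)
      (nodes lam h (a + bl lam (h + 1)) ∪ nodes lam h (a + bl lam (h + 1) + len lam h))

/-- cells of the opening brackets of the node `v` -/
def uB (lam : ℕ) (v : ℕ × ℕ) : Finset ℕ := Finset.Ico v.2 (v.2 + bl lam v.1)

/-- first cell of the closing brackets of the node `v` -/
def bet (lam : ℕ) (v : ℕ × ℕ) : ℕ := v.2 + len lam v.1 - bl lam v.1

/-- cells of the closing brackets of the node `v` -/
def vB (lam : ℕ) (v : ℕ × ℕ) : Finset ℕ := Finset.Ico (bet lam v) (bet lam v + bl lam v.1)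

/-- distance which has to be travelled between two nodes -/
def wt (lam : ℕ) (v : ℕ × ℕ) : ℕ := v.1 * bl lam v.1 / 2

/-- opening brackets of types `z a, z (a+1), …` -/
def opens (z : ℕ → Bool) (a l : ℕ) : List Letter := (List.range l).map fun r => (true, z (a + r))

/-- closing brackets of types `y (a+l-1), …, y a` -/
def closes (y : ℕ → Bool) (a l : ℕ) : List Letter :=
  (List.range l).map fun r => (false, y (a + (l - 1 - r)))

/-- The word of the tree of height `h` starting in the cell `a`: the opening brackets have the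
types `z p` (`p` the cell of the bracket) and the closing brackets the types `y p` (`p` the cell
of the matching opening bracket). -/
def word (lam : ℕ) (z y : ℕ → Bool) : ℕ → ℕ → List Letter
  | 0, a => opens z a (bl lam 0) ++ closes y a (bl lam 0)
  | h + 1, a => opens z a (bl lam (h + 1)) ++ (word lam z y h (a + bl lam (h + 1)) ++
      (word lam z y h (a + bl lam (h + 1) + len lam h) ++ closes y a (bl lam (h + 1))))

/-- padding of length `2 r` -/
def padw (r : ℕ) : List Letter := (List.replicate r [((true, true) : Letter), (false, true)]).flatten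

/-- the full input word (the word starts in cell `1`) -/
def full (lam h r : ℕ) (z y : ℕ → Bool) : List Letter := word lam z y h 1 ++ padw r

/-- the sub-block of `m` cells of `uB v` with offset `p` -/
def Ub (m : ℕ) (v : ℕ × ℕ) (p : ℕ) : Finset ℕ := Finset.Ico (v.2 + p) (v.2 + p + m)

/-- the matching sub-block of `vB v` -/
def Vb (lam m : ℕ) (v : ℕ × ℕ) (p : ℕ) : Finset ℕ :=
  Finset.Ico (bet lam v + bl lam v.1 - p - m) (bet lam v + bl lam v.1 - p)

/-- moves inside the interval `[a, a + l)`: pairs (time, head) -/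
def mv {k : ℕ} {Mem : Type} (f : ℕ → Config k Mem) (t a l : ℕ) : Finset (ℕ × Fin k) :=
  (Finset.range t ×ˢ (Finset.univ : Finset (Fin k))).filter fun q =>
    (f q.1).2 q.2 ≠ (f (q.1 + 1)).2 q.2 ∧ (f q.1).2 q.2 ∈ Finset.Ico a (a + l) ∧
      (f (q.1 + 1)).2 q.2 ∈ Finset.Ico a (a + l)

/-- number of changes of the status up to time `t` -/
def chg {k : ℕ} {Mem : Type} (f : ℕ → Config k Mem) (t : ℕ) (U V : Finset ℕ) : ℕ :=
  ((Finset.range t).filter fun s => st U V (f s) ≠ st U V (f (s + 1))).card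

/-! ### Statements of the tasks -/

/-- EXT: a run with few changes of status gives a chain. -/
def S_EXT : Prop := ∀ (k : ℕ) (Mem : Type) (M : Machine k Mem) (x : ℕ → Sym) (B t E : ℕ)
  (U V : Finset ℕ) (f : ℕ → Config k Mem), IsRun M x B t f →
  (∀ s, s ≤ t → st U V (f s) ≠ 3) → chg f t U V ≤ E → ∃ C : Code k Mem B E, Chain M x B U V E C

/-- FOO: cut and paste. -/
def S_FOO : Prop := ∀ (k : ℕ) (Mem : Type) (M : Machine k Mem) (x1 x2 x12 : ℕ → Sym) (B E : ℕ)
  (U V : Finset ℕ) (C : Code k Mem B E), (∀ p, p ∉ V → x1 p = x12 p) → (∀ p, p ∉ U → x2 p = x12 p) →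
  Chain M x1 B U V E C → Chain M x2 B U V E C → ∃ t f, IsRun M x12 B t f

/-- CNT: counting. -/
def S_CNT : Prop := ∀ (N m : ℕ) (J : Type) [Fintype J] (U : J → Finset (Fin N)) (C : Type)
  [Fintype C] (Bad : J → (Fin N → Bool) → C → Prop), (∀ j, (U j).card = m) →
  (∀ j z z' c, Bad j z c → Bad j z' c → (∀ i, i ∉ U j → z i = z' i) → z = z') →
  Fintype.card J * Fintype.card C < 2 ^ m → ∃ z, ∀ j c, ¬ Bad j z c

/-- TRV: disjoint intervals of time. -/
def S_TRV : Prop := ∀ (ι : Type) (V : Finset ι) (w s : ι → ℕ) (t W : ℕ),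
  (∀ v ∈ V, s v ≤ t ∧ w v ≤ W) →
  (∀ v ∈ V, ∀ v' ∈ V, v ≠ v' → s v ≤ s v' → s v + w v ≤ s v') → ∑ v ∈ V, w v ≤ t + W

/-- CRS: if the status with respect to every pair of sub-blocks changes often, then many moves
take place inside the blocks. -/
def S_CRS : Prop := ∀ (k : ℕ) (Mem : Type) (f : ℕ → Config k Mem) (t α β l m E : ℕ),
  (∀ s, s < t → ∀ i, |(((f (s + 1)).2 i : ℕ) : ℤ) - (f s).2 i| ≤ 1) → m + 1 ≤ l →
  (∀ p, 1 ≤ p → p + m + 1 ≤ l →
    E < chg f t (Finset.Ico (α + p) (α + p + m)) (Finset.Ico (β + l - p - m) (β + l - p))) →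
  (l - m - 1) * (E + 1) ≤ 2 * ((mv f t α l).card + (mv f t β l).card)

/-- N1: nodes lie in the interval of the tree; the blocks of a node lie in its interval. -/
def S_N1 : Prop := ∀ lam h a : ℕ, ∀ v ∈ nodes lam h a,
  v.1 ≤ h ∧ a ≤ v.2 ∧ v.2 + len lam v.1 ≤ a + len lam h ∧ 2 * bl lam v.1 ≤ len lam v.1

/-- N2: separation of different nodes. -/
def S_N2 : Prop := ∀ lam h a : ℕ, ∀ v ∈ nodes lam h a, ∀ v' ∈ nodes lam h a, v ≠ v' →
  ∀ x ∈ uB lam v, ∀ y ∈ vB lam v, ∀ x' ∈ uB lam v', ∀ y' ∈ vB lam v',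
    (x + wt lam v ≤ x' ∨ x' + wt lam v ≤ x) ∨ (y + wt lam v ≤ y' ∨ y' + wt lam v ≤ y)

/-- N3: blocks of different nodes are disjoint, and opening blocks are disjoint from closing
blocks. -/
def S_N3 : Prop := ∀ lam h a : ℕ, ∀ v ∈ nodes lam h a, ∀ v' ∈ nodes lam h a,
  Disjoint (uB lam v) (vB lam v') ∧ (v ≠ v' → Disjoint (uB lam v) (uB lam v')) ∧
    (v ≠ v' → Disjoint (vB lam v) (vB lam v'))

/-- N4: total length of the blocks of the nodes of height at least `j`. -/
def S_N4 : Prop := ∀ lam h a j : ℕ, 1 ≤ lam → j ≤ h →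
  (∑ v ∈ (nodes lam h a).filter (fun v => j ≤ v.1), bl lam v.1 = (h + 1 - j) * (lam * 2 ^ h)) ∧
  (nodes lam h a).card ≤ 2 ^ (h + 1)

/-- W1: length, and the words with equal types are Dyck words. -/
def S_W1 : Prop := ∀ (lam h r : ℕ) (z y : ℕ → Bool),
  (full lam h r z y).length = len lam h + 2 * r ∧ Dyck (full lam h r z z)

/-- W2: a mismatch is not a Dyck word. -/
def S_W2 : Prop := ∀ (lam h r : ℕ) (z y : ℕ → Bool), ∀ v ∈ nodes lam h 1, ∀ p ∈ uB lam v,
  z p ≠ y p → ¬ Dyck (full lam h r z y)

/-- W3: locality. -/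
def S_W3 : Prop := ∀ (lam h r : ℕ) (z z' y y' : ℕ → Bool),
  (∀ (U : Finset ℕ), (∀ p, p ∉ U → z p = z' p) →
    ∀ q, q ∉ U → cell (full lam h r z y) q = cell (full lam h r z' y) q) ∧
  (∀ v ∈ nodes lam h 1, ∀ p m : ℕ, p + m ≤ bl lam v.1 → (∀ q, q ∉ Ub m v p → y q = y' q) →
    ∀ q, q ∉ Vb lam m v p → cell (full lam h r z y) q = cell (full lam h r z y') q)

/-- GOOD: there is an assignment of types which is not bad for any pair (node, offset). -/
def S_GOOD : Prop := ∀ (k : ℕ) (Mem : Type) [Fintype Mem] (M : Machine k Mem) (lam h r m E : ℕ),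
  1 ≤ lam → m + 1 ≤ lam →
  (∀ w : List Letter, w.length = len lam h + 2 * r → (∃ t, AcceptsIn M w t) → Dyck w) →
  (len lam h + 2 * r + 2) ^ 2 *
    ((Fintype.card Mem * (len lam h + 2 * r + 2) ^ k) ^ (E + 2) * 3 ^ (E + 1)) < 2 ^ m →
  ∃ z : ℕ → Bool, ∀ v ∈ nodes lam h 1, ∀ p, p + m ≤ bl lam v.1 →
    ∀ C : Code k Mem (len lam h + 2 * r + 1) E,
      ¬ Chain M (cell (full lam h r z z)) (len lam h + 2 * r + 1) (Ub m v p) (Vb lam m v p) E C

/-- CORE: the combinatorial lower bound. -/
def S_CORE : Prop := ∀ (k : ℕ) (Mem : Type) [Fintype Mem] (M : Machine k Mem) (lam h r m E : ℕ),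
  1 ≤ m → 4 * m ≤ lam →
  (∀ w : List Letter, w.length = len lam h + 2 * r → ((∃ t, AcceptsIn M w t) ↔ Dyck w)) →
  (len lam h + 2 * r + 2) ^ 2 *
    ((Fintype.card Mem * (len lam h + 2 * r + 2) ^ k) ^ (E + 2) * 3 ^ (E + 1)) < 2 ^ m →
  ∃ w : List Letter, w.length = len lam h + 2 * r ∧ Dyck w ∧ ∀ t, AcceptsIn M w t →
    (h * len lam h ≤ 64 * k ^ 2 * (t + len lam h) ∨ (E + 1) * len lam h ≤ 64 * k * t)

/-- NUM: choice of the parameters. -/
def S_NUM : Prop := ∀ (k : ℕ) (δ : ℝ), 0 < δ → δ ≤ 1 → ∃ N : ℕ, ∀ n : ℕ, N ≤ n → Even n →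
  ∃ lam h r m : ℕ, n = len lam h + 2 * r ∧ 1 ≤ m ∧ 4 * m ≤ lam ∧ 1 ≤ h ∧
    (∀ c : ℕ, (c : ℝ) ≤ 2 ^ ((n : ℝ) ^ (1 - δ)) →
      (n + 2) ^ 2 * ((c * (n + 2) ^ k) ^ (h + 1) * 3 ^ h) < 2 ^ m) ∧
    (∀ t : ℕ, (h * len lam h ≤ 64 * k ^ 2 * (t + len lam h) ∨ h * len lam h ≤ 64 * k * t) →
      δ / (2048 * (k + 1) ^ 2) * (n * Real.log n) ≤ t)

/-- CFL: the Dyck language is context-free. -/
def S_CFL : Prop := Language.IsContextFree ({w | Dyck w} : Language Letter)

end Pool.Agent.H822R4.DK
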