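import Pool.Agent.H822R4.DK.Defs

/-!
# A run with few changes of status gives a chain (helper265)
-/

set_option autoImplicit false

namespace Pool.Agent.H822R4.DK.TEXT

open Pool.Agent.H822R4.DK

variable {k : ℕ} {Mem : Type}

theorem st_le (U V : Finset ℕ) (c : Config k Mem) : st U V c ≤ 3 := by
  unfold st; split_ifs <;> omega

theorem seg_const (M : Machine k Mem) (x : ℕ → Sym) (B t : ℕ) (U V : Finset ℕ)
    (f : ℕ → Config k Mem) (hf : ∀ s, s < t → Step M x B (f s) (f (s + 1))) (a s0 : ℕ) :
    ∀ s1, s0 ≤ s1 → s1 ≤ t → (∀ u, s0 ≤ u → u < s1 → st U V (f u) = a) →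
      Seg M x B U V a (f s0) (f s1) := by
  intro s1 h01
  induction s1, h01 using Nat.le_induction with
  | base => intro _ _; exact Relation.ReflTransGen.refl
  | succ s1 h01 ih =>
    intro ht hc
    exact Relation.ReflTransGen.tail (ih (by omega) (fun u h1 h2 => hc u h1 (by omega)))
      ⟨hf s1 (by omega), hc s1 h01 (by omega)⟩

theorem const_of_nochange (U V : Finset ℕ) (f : ℕ → Config k Mem) (s0 s1 : ℕ)
    (h : ∀ u, s0 ≤ u → u < s1 → st U V (f u) = st U V (f (u + 1))) :
    ∀ u, s0 ≤ u → u ≤ s1 → st U V (f u) = st U V (f s0) := by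
  intro u hu
  induction u, hu using Nat.le_induction with
  | base => intro _; rfl
  | succ u hu ih =>
    intro h1
    rw [← h u hu (by omega)]
    exact ih (by omega)

theorem gen (M : Machine k Mem) (x : ℕ → Sym) (B t : ℕ) (U V : Finset ℕ)
    (f : ℕ → Config k Mem) (hf : ∀ s, s < t → Step M x B (f s) (f (s + 1)))
    (hst : ∀ s, s ≤ t → st U V (f s) ≠ 3) : ∀ (E s0 : ℕ), s0 ≤ t →
    ((Finset.Ico s0 t).filter fun s => st U V (f s) ≠ st U V (f (s + 1))).card ≤ E →
    ∃ (c a : ℕ → ℕ), c 0 = s0 ∧ c (E + 1) = t ∧ (∀ i, c i ≤ t) ∧ (∀ i, a i < 3) ∧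
      ∀ i, i ≤ E → Seg M x B U V (a i) (f (c i)) (f (c (i + 1))) := by
  have hlt : ∀ s, s ≤ t → st U V (f s) < 3 := by
    intro s hs
    have h1 := st_le U V (f s)
    have h2 := hst s hs
    omega
  have noch : ∀ (E s0 : ℕ), s0 ≤ t →
      (∀ u, s0 ≤ u → u < t → st U V (f u) = st U V (f (u + 1))) →
      ∃ (c a : ℕ → ℕ), c 0 = s0 ∧ c (E + 1) = t ∧ (∀ i, c i ≤ t) ∧ (∀ i, a i < 3) ∧
        ∀ i, i ≤ E → Seg M x B U V (a i) (f (c i)) (f (c (i + 1))) := by
    intro E s0 h0 hno
    refine ⟨fun i => if i = 0 then s0 else t, fun _ => st U V (f s0), by simp, by simp, ?_, ?_, ?_⟩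
    · intro i
      dsimp only
      split_ifs
      · exact h0
      · exact le_refl _
    · intro _; exact hlt s0 h0
    · intro i _
      dsimp only
      rw [if_neg (Nat.succ_ne_zero i)]
      by_cases hi : i = 0
      · rw [if_pos hi]
        exact seg_const M x B t U V f hf _ s0 t h0 le_rfl
          (fun u h1 h2 => const_of_nochange U V f s0 t hno u h1 h2.le)
      · rw [if_neg hi]
        exact Relation.ReflTransGen.refl
  intro E
  induction E with
  | zero =>
    intro s0 h0 hcard
    refine noch 0 s0 h0 fun u h1 h2 => ?_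
    by_contra hne
    rw [Nat.le_zero, Finset.card_eq_zero] at hcard
    have : u ∈ (Finset.Ico s0 t).filter fun s => st U V (f s) ≠ st U V (f (s + 1)) :=
      Finset.mem_filter.2 ⟨Finset.mem_Ico.2 ⟨h1, h2⟩, hne⟩
    rw [hcard] at this
    simp at this
  | succ E ih =>
    intro s0 h0 hcard
    by_cases hex : ∃ u, s0 ≤ u ∧ u < t ∧ st U V (f u) ≠ st U V (f (u + 1))
    · classical
      obtain ⟨h1, h2, h3⟩ := Nat.find_spec hex
      set s1 := Nat.find hex with hs1
      have hmin : ∀ u, s0 ≤ u → u < s1 → st U V (f u) = st U V (f (u + 1)) := by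
        intro u hu hu1
        by_contra hne
        exact Nat.find_min hex hu1 ⟨hu, by omega, hne⟩
      have hcard' : ((Finset.Ico (s1 + 1) t).filter
          fun s => st U V (f s) ≠ st U V (f (s + 1))).card ≤ E := by
        have hsub : insert s1 ((Finset.Ico (s1 + 1) t).filter
            fun s => st U V (f s) ≠ st U V (f (s + 1))) ⊆
            (Finset.Ico s0 t).filter fun s => st U V (f s) ≠ st U V (f (s + 1)) := by
          intro u hu
          rw [Finset.mem_insert] at hu
          rcases hu with rfl | hu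
          · exact Finset.mem_filter.2 ⟨Finset.mem_Ico.2 ⟨h1, h2⟩, h3⟩
          · rw [Finset.mem_filter, Finset.mem_Ico] at hu
            exact Finset.mem_filter.2 ⟨Finset.mem_Ico.2 ⟨by omega, hu.1.2⟩, hu.2⟩
        have hc := Finset.card_le_card hsub
        rw [Finset.card_insert_of_notMem (by
          rw [Finset.mem_filter, Finset.mem_Ico]
          omega)] at hc
        omega
      obtain ⟨c, a, c0, cE, cle, alt, hseg⟩ := ih (s1 + 1) (by omega) hcard'
      refine ⟨fun i => if i = 0 then s0 else c (i - 1),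
        fun i => if i = 0 then st U V (f s0) else a (i - 1), by simp, by simpa using cE, ?_, ?_, ?_⟩
      · intro i
        dsimp only
        split_ifs
        · exact h0
        · exact cle _
      · intro i
        dsimp only
        split_ifs
        · exact hlt s0 h0
        · exact alt _
      · intro i hi
        dsimp only
        rw [if_neg (Nat.succ_ne_zero i), Nat.add_sub_cancel]
        by_cases hi0 : i = 0
        · rw [if_pos hi0, if_pos hi0, hi0, c0]
          exact seg_const M x B t U V f hf _ s0 (s1 + 1) (by omega) (by omega)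
            (fun u h1 h2 => const_of_nochange U V f s0 s1 hmin u h1 (by omega))
        · rw [if_neg hi0, if_neg hi0]
          have := hseg (i - 1) (by omega)
          rw [Nat.sub_add_cancel (by omega)] at this
          exact this
    · push Not at hex
      exact noch (E + 1) s0 h0 fun u h1 h2 => hex u h1 h2

theorem EXT : S_EXT := by
  intro k Mem M x B t E U V f hrun hst hchg
  obtain ⟨hr0, hrs, hra⟩ := hrun
  have hbd : ∀ s, s ≤ t → ∀ i, (f s).2 i ≤ B := by
    intro s hs i
    cases s with
    | zero => rw [hr0]; exact Nat.zero_le _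
    | succ s =>
      obtain ⟨d, _, hd⟩ := hrs s (by omega)
      exact (hd i).2.2
  obtain ⟨c, a, c0, cE, cle, alt, hseg⟩ := gen M x B t U V f hrs hst E 0 (Nat.zero_le _) (by
    unfold chg at hchg
    rw [Finset.range_eq_Ico] at hchg
    exact hchg)
  let b : ℕ → Mem × (Fin k → Fin (B + 1)) := fun s =>
    ((f s).1, fun i => ⟨min ((f s).2 i) B, Nat.lt_succ_of_le (min_le_right _ _)⟩)
  have hb : ∀ s, s ≤ t → toC (b s) = f s := by
    intro s hs
    show ((f s).1, fun i => min ((f s).2 i) B) = f s
    have : (fun i => min ((f s).2 i) B) = (f s).2 := by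
      funext i
      exact min_eq_left (hbd s hs i)
    rw [this]
  refine ⟨(fun i => b (c i), fun i => ⟨a i, alt i⟩), ?_, ?_, ?_⟩
  · show toC (b (c ((0 : Fin (E + 2)) : ℕ))) = _
    rw [Fin.val_zero, c0, hb 0 (Nat.zero_le _), hr0]
  · show (b (c ((Fin.last (E + 1) : Fin (E + 2)) : ℕ))).1 ∈ M.acc
    rw [Fin.val_last, cE]
    exact hra
  · intro i
    show Seg M x B U V (a i) (toC (b (c (i.castSucc : ℕ)))) (toC (b (c (i.succ : ℕ))))
    rw [hb _ (cle _), hb _ (cle _), Fin.val_castSucc, Fin.val_succ]
    exact hseg i (by omega)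

end Pool.Agent.H822R4.DK.TEXT
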