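import Pool.Agent.H822R4.DK.Defs

set_option autoImplicit false

namespace Pool.Agent.H822R4.DK.TFOO

open Pool.Agent.H822R4.DK

theorem step_of {k : ℕ} {Mem : Type} (M : Machine k Mem) (x x' : ℕ → Sym) (B : ℕ) (W : Finset ℕ)
    (h : ∀ p, p ∉ W → x p = x' p) (c c' : Config k Mem) (hc : ¬ occ W c) (hs : Step M x B c c') :
    Step M x' B c c' := by
  obtain ⟨d, h1, h2⟩ := hs
  refine ⟨d, ?_, h2⟩
  have : (fun i => x (c.2 i)) = (fun i => x' (c.2 i)) := by
    funext i
    exact h _ (fun hi => hc ⟨i, hi⟩)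
  rw [← this]
  exact h1

theorem exists_run {α : Type} (r : α → α → Prop) {a b : α} (h : Relation.ReflTransGen r a b) :
    ∃ (t : ℕ) (f : ℕ → α), f 0 = a ∧ f t = b ∧ ∀ s, s < t → r (f s) (f (s + 1)) := by
  induction h with
  | refl => exact ⟨0, fun _ => a, rfl, rfl, fun s hs => absurd hs (Nat.not_lt_zero s)⟩
  | @tail b c _ hbc ih =>
    obtain ⟨t, f, h0, ht, hr⟩ := ih
    refine ⟨t + 1, fun s => if s ≤ t then f s else c, ?_, ?_, ?_⟩
    · simp [h0]
    · simp
    · intro s hs
      by_cases h1 : s < t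
      · have h2 : s ≤ t := h1.le
        have h3 : s + 1 ≤ t := h1
        simp only [h2, h3, if_true]
        exact hr s h1
      · have h2 : s = t := by omega
        subst h2
        simp only [le_refl, if_true, Nat.not_succ_le_self, if_false]
        rw [ht]
        exact hbc

theorem FOO : S_FOO := by
  intro k Mem M x1 x2 x12 B E U V C h1 h2 c1 c2
  have seg : ∀ i : Fin (E + 1), Relation.ReflTransGen (Step M x12 B) (toC (C.1 i.castSucc))
      (toC (C.1 i.succ)) := by
    intro i
    have s1 := c1.2.2 i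
    have s2 := c2.2.2 i
    unfold Seg at s1 s2
    have h3 : (C.2 i : ℕ) < 3 := (C.2 i).2
    by_cases h4 : (C.2 i : ℕ) = 2
    · refine Relation.ReflTransGen.mono ?_ _ _ s2
      rintro c c' ⟨hs, ha⟩
      refine step_of M x2 x12 B U h2 c c' (fun ho => ?_) hs
      rw [h4] at ha
      unfold st at ha
      rw [if_pos ho] at ha
      split_ifs at ha
      · omega
      · omega
    · refine Relation.ReflTransGen.mono ?_ _ _ s1
      rintro c c' ⟨hs, ha⟩
      refine step_of M x1 x12 B V h1 c c' (fun ho => ?_) hs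
      unfold st at ha
      rw [if_pos ho] at ha
      split_ifs at ha
      · omega
      · omega
  have all : Relation.ReflTransGen (Step M x12 B) (toC (C.1 0)) (toC (C.1 (Fin.last (E + 1)))) :=
    Fin.induction (motive := fun i => Relation.ReflTransGen (Step M x12 B) (toC (C.1 0))
      (toC (C.1 i))) Relation.ReflTransGen.refl (fun i ih => ih.trans (seg i)) (Fin.last (E + 1))
  obtain ⟨t, f, h0, ht, hr⟩ := exists_run _ all
  refine ⟨t, f, ?_, hr, ?_⟩
  · rw [h0]
    exact c1.1
  · rw [ht]
    exact c1.2.1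

end Pool.Agent.H822R4.DK.TFOO
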