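import Pool.Agent.H822R4.DK.Defs

/-!
# Task GOOD: an assignment which is not bad for any pair (node, offset)
-/

set_option autoImplicit false

namespace Pool.Agent.H822R4.DK.TGOOD

open Pool.Agent.H822R4.DK

/-- extension by `false` -/
def ext {N : ℕ} (z : Fin N → Bool) : ℕ → Bool := fun i => if h : i < N then z ⟨i, h⟩ else false

theorem ext_val {N : ℕ} (z : Fin N → Bool) (i : Fin N) : ext z (i : ℕ) = z i := by
  unfold ext
  rw [dif_pos i.2]

/-- the pairs (node, offset) -/
def JF (lam h m n : ℕ) : Finset ((ℕ × ℕ) × ℕ) :=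
  ((nodes lam h 1) ×ˢ (Finset.range (n + 1))).filter (fun q => q.2 + m ≤ bl lam q.1.1)

/-- cells of the sub-block as elements of `Fin N` -/
def UF (N m : ℕ) (v : ℕ × ℕ) (p : ℕ) : Finset (Fin N) :=
  Finset.univ.filter (fun i : Fin N => (i : ℕ) ∈ Ub m v p)

theorem UF_card (N m : ℕ) (v : ℕ × ℕ) (p : ℕ) (h : v.2 + p + m ≤ N) : (UF N m v p).card = m := by
  have h1 : (UF N m v p).map Fin.valEmbedding = Ub m v p := by
    ext q
    simp only [UF, Finset.mem_map, Finset.mem_filter, Finset.mem_univ, true_and,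
      Fin.valEmbedding_apply]
    constructor
    · rintro ⟨i, hi, rfl⟩; exact hi
    · intro hq
      have h2 := hq
      unfold Ub at h2
      rw [Finset.mem_Ico] at h2
      exact ⟨⟨q, by omega⟩, hq, rfl⟩
  rw [← Finset.card_map Fin.valEmbedding, h1]
  unfold Ub
  rw [Nat.card_Ico]
  omega

theorem two_pow_le_len (lam h : ℕ) (hl : 1 ≤ lam) : 2 ^ (h + 1) ≤ len lam h := by
  unfold len
  have h1 : 1 ≤ 2 ^ h := Nat.one_le_two_pow
  have h2 : 1 * 2 ^ h ≤ lam * 2 ^ h := Nat.mul_le_mul_right _ hl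
  have h3 : lam * 2 ^ h * 1 ≤ lam * 2 ^ h * (h + 1) := Nat.mul_le_mul_left _ (by omega)
  rw [pow_succ]
  have h4 : 2 * lam * 2 ^ h * (h + 1) = 2 * (lam * 2 ^ h * (h + 1)) := by ring
  rw [h4]
  omega

theorem GOOD (hCNT : S_CNT) (hFOO : S_FOO) (hN1 : S_N1) (_hN3 : S_N3) (hN4 : S_N4)
    (hW1 : S_W1) (hW2 : S_W2) (hW3 : S_W3) : S_GOOD := by
  intro k Mem _ M lam h r m E hlam hm hD hbig
  classical
  set n := len lam h + 2 * r with hn
  have hnode : ∀ v ∈ nodes lam h 1, v.2 + len lam v.1 ≤ 1 + len lam h ∧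
      bl lam v.1 ≤ len lam v.1 ∧ 1 ≤ v.2 := by
    intro v hv
    obtain ⟨-, h2, h3, h4⟩ := hN1 lam h 1 v hv
    exact ⟨h3, by omega, h2⟩
  -- the number of pairs
  have hJcard : (JF lam h m n).card ≤ (n + 2) ^ 2 := by
    have h1 : (JF lam h m n).card ≤ (nodes lam h 1).card * (n + 1) := by
      refine (Finset.card_filter_le _ _).trans ?_
      rw [Finset.card_product, Finset.card_range]
    have h2 : (nodes lam h 1).card ≤ 2 ^ (h + 1) := (hN4 lam h 1 0 hlam (Nat.zero_le _)).2
    have h3 := two_pow_le_len lam h hlam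
    have h4 : (nodes lam h 1).card ≤ n + 2 := by omega
    calc (JF lam h m n).card ≤ (nodes lam h 1).card * (n + 1) := h1
      _ ≤ (n + 2) * (n + 2) := Nat.mul_le_mul h4 (by omega)
      _ = (n + 2) ^ 2 := by ring
  have hcardC : Fintype.card (Code k Mem (n + 1) E) =
      (Fintype.card Mem * (n + 2) ^ k) ^ (E + 2) * 3 ^ (E + 1) := by
    simp [Code, Fintype.card_prod, Fintype.card_fun, Fintype.card_fin]
  have key := hCNT (n + 2) m {q // q ∈ JF lam h m n} (fun j => UF (n + 2) m j.1.1 j.1.2)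
    (Code k Mem (n + 1) E)
    (fun j z c => Chain M (cell (full lam h r (ext z) (ext z))) (n + 1)
      (Ub m j.1.1 j.1.2) (Vb lam m j.1.1 j.1.2) E c)
    ?_ ?_ ?_
  · obtain ⟨z, hz⟩ := key
    refine ⟨ext z, fun v hv p hp C hC => ?_⟩
    have hmem : (v, p) ∈ JF lam h m n := by
      unfold JF
      rw [Finset.mem_filter, Finset.mem_product, Finset.mem_range]
      obtain ⟨h1, h2, h3⟩ := hnode v hv
      exact ⟨⟨hv, by show p < n + 1; omega⟩, hp⟩
    exact hz ⟨(v, p), hmem⟩ C hC
  · -- cardinality of the blocks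
    rintro ⟨⟨v, p⟩, hq⟩
    unfold JF at hq
    rw [Finset.mem_filter, Finset.mem_product] at hq
    obtain ⟨⟨hv, -⟩, hp⟩ := hq
    obtain ⟨h1, h2, h3⟩ := hnode v hv
    have hp' : p + m ≤ bl lam v.1 := hp
    exact UF_card (n + 2) m v p (by omega)
  · -- cut and paste
    rintro ⟨⟨v, p⟩, hq⟩ z z' c hz hz' heq
    unfold JF at hq
    rw [Finset.mem_filter, Finset.mem_product] at hq
    obtain ⟨⟨hv, -⟩, hp⟩ := hq
    have hv : v ∈ nodes lam h 1 := hv
    have hp : p + m ≤ bl lam v.1 := hp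
    have hz : Chain M (cell (full lam h r (ext z) (ext z))) (n + 1) (Ub m v p) (Vb lam m v p) E c :=
      hz
    have hz' : Chain M (cell (full lam h r (ext z') (ext z'))) (n + 1) (Ub m v p)
      (Vb lam m v p) E c := hz'
    have hext : ∀ q, q ∉ Ub m v p → ext z q = ext z' q := by
      intro q hq
      unfold ext
      split_ifs with hqN
      · refine heq ⟨q, hqN⟩ ?_
        show (⟨q, hqN⟩ : Fin (n + 2)) ∉ UF (n + 2) m v p
        unfold UF
        rw [Finset.mem_filter]
        exact fun h => hq h.2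
      · rfl
    have e1 := (hW3 lam h r (ext z) (ext z) (ext z) (ext z')).2 v hv p m hp hext
    have e2 := (hW3 lam h r (ext z') (ext z) (ext z') (ext z')).1 (Ub m v p)
      (fun q hq => (hext q hq).symm)
    obtain ⟨t, f, hf⟩ := hFOO k Mem M (cell (full lam h r (ext z) (ext z)))
      (cell (full lam h r (ext z') (ext z'))) (cell (full lam h r (ext z) (ext z')))
      (n + 1) E (Ub m v p) (Vb lam m v p) c e1 e2 hz hz'
    have hlen : (full lam h r (ext z) (ext z')).length = n := (hW1 lam h r (ext z) (ext z')).1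
    have hacc : AcceptsIn M (full lam h r (ext z) (ext z')) t := by
      refine ⟨f, ?_⟩
      rw [hlen]
      exact hf
    have hdy := hD _ hlen ⟨t, hacc⟩
    have hall : ∀ q ∈ uB lam v, ext z q = ext z' q := by
      intro q hq
      by_contra hne
      exact hW2 lam h r (ext z) (ext z') v hv q hq hne hdy
    funext i
    by_cases hi : i ∈ UF (n + 2) m v p
    · have h1 : (i : ℕ) ∈ Ub m v p := by
        unfold UF at hi
        exact (Finset.mem_filter.mp hi).2
      have h2 : (i : ℕ) ∈ uB lam v := by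
        unfold Ub at h1
        unfold uB
        rw [Finset.mem_Ico] at h1 ⊢
        omega
      have h3 := hall _ h2
      rwa [ext_val, ext_val] at h3
    · exact heq i hi
  · rw [hcardC, Fintype.card_coe]
    exact lt_of_le_of_lt (Nat.mul_le_mul_right _ hJcard) hbig

end Pool.Agent.H822R4.DK.TGOOD
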