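import Pool.Agent.H822R4.DK.Defs

set_option autoImplicit false

namespace Pool.Agent.H822R4.DK.TN1

open Pool.Agent.H822R4.DK

theorem len_succ (lam h : ℕ) : len lam (h + 1) = 2 * bl lam (h + 1) + 2 * len lam h := by
  unfold len bl
  ring

theorem two_bl_le (lam i : ℕ) : 2 * bl lam i ≤ len lam i := by
  unfold len bl
  have h : 2 * (lam * 2 ^ i) * 1 ≤ 2 * (lam * 2 ^ i) * (i + 1) := Nat.mul_le_mul_left _ (by omega)
  calc 2 * (lam * 2 ^ i) = 2 * (lam * 2 ^ i) * 1 := by ring
    _ ≤ 2 * (lam * 2 ^ i) * (i + 1) := h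
    _ = 2 * lam * 2 ^ i * (i + 1) := by ring

theorem N1 : S_N1 := by
  intro lam h
  induction h with
  | zero =>
    intro a v hv
    simp only [nodes, Finset.mem_singleton] at hv
    subst hv
    exact ⟨le_refl _, le_refl _, le_refl _, two_bl_le lam 0⟩
  | succ h ih =>
    intro a v hv
    have e := len_succ lam h
    simp only [nodes, Finset.mem_insert, Finset.mem_union] at hv
    rcases hv with hv | hv | hv
    · subst hv
      exact ⟨le_refl _, le_refl _, le_refl _, two_bl_le lam (h + 1)⟩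
    · obtain ⟨h1, h2, h3, h4⟩ := ih _ v hv
      exact ⟨by omega, by omega, by omega, h4⟩
    · obtain ⟨h1, h2, h3, h4⟩ := ih _ v hv
      exact ⟨by omega, by omega, by omega, h4⟩

end Pool.Agent.H822R4.DK.TN1
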