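import Pool.Agent.H822R4.DK.Defs

set_option autoImplicit false

namespace Pool.Agent.H822R4.DK.TN2

open Pool.Agent.H822R4.DK

lemma len_succ (lam i : ℕ) : len lam (i + 1) = 2 * len lam i + 2 * bl lam (i + 1) := by
  unfold len bl; ring

lemma len_mono (lam : ℕ) {i j : ℕ} (h : i ≤ j) : len lam i ≤ len lam j := by
  unfold len
  have h1 : 2 ^ i ≤ 2 ^ j := Nat.pow_le_pow_right (by norm_num) h
  exact Nat.mul_le_mul (Nat.mul_le_mul_left _ h1) (by omega)

lemma wt_le (lam : ℕ) (v : ℕ × ℕ) : 4 * wt lam v ≤ len lam v.1 ∧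
    wt lam v + bl lam v.1 ≤ len lam v.1 := by
  have h1 : wt lam v * 2 ≤ v.1 * bl lam v.1 := Nat.div_mul_le_self _ _
  have h2 : len lam v.1 = 2 * (v.1 * bl lam v.1) + 2 * bl lam v.1 := by
    unfold len bl; ring
  omega

lemma wt_root (lam h a : ℕ) : 2 * wt lam (h + 1, a) = len lam h := by
  have h1 : (h + 1) * bl lam (h + 1) = 2 * ((h + 1) * bl lam h) := by
    unfold bl; ring
  have h2 : wt lam (h + 1, a) = (h + 1) * bl lam h := by
    show (h + 1) * bl lam (h + 1) / 2 = _
    rw [h1]; omega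
  rw [h2]; unfold len bl; ring

/-- numerical facts for a node in the tree at `[c, c + len lam h)`. -/
lemma node_facts (hN1 : S_N1) {lam h c : ℕ} {v : ℕ × ℕ} (hv : v ∈ nodes lam h c) {x y : ℕ}
    (hx : x ∈ uB lam v) (hy : y ∈ vB lam v) :
    c ≤ x ∧ y < c + len lam h ∧ x < y ∧ v.2 ≤ x ∧ x < v.2 + bl lam v.1 ∧
      v.2 + len lam v.1 ≤ y + bl lam v.1 ∧ y < v.2 + len lam v.1 ∧
      c ≤ v.2 ∧ v.2 + len lam v.1 ≤ c + len lam h ∧ 4 * wt lam v ≤ len lam h ∧
      wt lam v + bl lam v.1 ≤ len lam v.1 := by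
  obtain ⟨h1, h2, h3, h4⟩ := hN1 lam h c v hv
  have h5 := wt_le lam v
  have h6 := len_mono lam h1
  simp only [uB, vB, bet, Finset.mem_Ico] at hx hy
  omega

theorem N2 (hN1 : S_N1) : S_N2 := by
  intro lam h
  induction h with
  | zero =>
    intro a v hv v' hv' hne
    simp only [nodes, Finset.mem_singleton] at hv hv'
    exact absurd (hv.trans hv'.symm) hne
  | succ h ih =>
    intro a v hv v' hv' hne x hx y hy x' hx' y' hy'
    have hlen := len_succ lam h
    have hroot := wt_root lam h a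
    -- facts for the root
    have hR : ∀ {x y : ℕ}, x ∈ uB lam (h + 1, a) → y ∈ vB lam (h + 1, a) →
        x < a + bl lam (h + 1) ∧ a + bl lam (h + 1) + 2 * len lam h ≤ y := by
      intro x y hx hy
      simp only [uB, vB, bet, Finset.mem_Ico] at hx hy
      omega
    simp only [nodes, Finset.mem_insert, Finset.mem_union] at hv hv'
    rcases hv with rfl | hv | hv
    · obtain ⟨r1, r2⟩ := hR hx hy
      rcases hv' with rfl | hv' | hv'
      · exact absurd rfl hne
      · obtain ⟨f1, f2, f3, -⟩ := node_facts hN1 hv' hx' hy'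
        omega
      · obtain ⟨f1, f2, f3, -⟩ := node_facts hN1 hv' hx' hy'
        omega
    · obtain ⟨g1, g2, g3, g4, g5, g6, g7, g8, g9, g10, g11⟩ := node_facts hN1 hv hx hy
      rcases hv' with rfl | hv' | hv'
      · obtain ⟨r1, r2⟩ := hR hx' hy'
        omega
      · exact ih _ v hv v' hv' hne x hx y hy x' hx' y' hy'
      · obtain ⟨f1, f2, f3, -⟩ := node_facts hN1 hv' hx' hy'
        omega
    · obtain ⟨g1, g2, g3, g4, g5, g6, g7, g8, g9, g10, g11⟩ := node_facts hN1 hv hx hy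
      rcases hv' with rfl | hv' | hv'
      · obtain ⟨r1, r2⟩ := hR hx' hy'
        omega
      · obtain ⟨f1, f2, f3, -⟩ := node_facts hN1 hv' hx' hy'
        omega
      · exact ih _ v hv v' hv' hne x hx y hy x' hx' y' hy'

end Pool.Agent.H822R4.DK.TN2
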