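import Pool.Agent.H822R4.DK.Defs

set_option autoImplicit false

namespace Pool.Agent.H822R4.DK.TN3

open Pool.Agent.H822R4.DK

theorem len_succ (lam h : ℕ) : len lam (h + 1) = 2 * bl lam (h + 1) + 2 * len lam h := by
  unfold len bl
  ring

/-- the interval of a node. -/
def Sep (lam : ℕ) (v v' : ℕ × ℕ) : Prop :=
  Disjoint (uB lam v) (vB lam v') ∧ (v ≠ v' → Disjoint (uB lam v) (uB lam v')) ∧
    (v ≠ v' → Disjoint (vB lam v) (vB lam v'))

/-- nodes with disjoint intervals. -/
theorem sep_disj (lam : ℕ) (v v' : ℕ × ℕ) (h1 : 2 * bl lam v.1 ≤ len lam v.1)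
    (h2 : 2 * bl lam v'.1 ≤ len lam v'.1)
    (h : v.2 + len lam v.1 ≤ v'.2 ∨ v'.2 + len lam v'.1 ≤ v.2) : Sep lam v v' := by
  unfold Sep uB vB bet
  simp only [Finset.disjoint_left, Finset.mem_Ico]
  rcases h with h | h
  · exact ⟨fun x hx hx' => by omega, fun _ x hx hx' => by omega, fun _ x hx hx' => by omega⟩
  · exact ⟨fun x hx hx' => by omega, fun _ x hx hx' => by omega, fun _ x hx hx' => by omega⟩

/-- the second node is inside of the first. -/
theorem sep_in (lam : ℕ) (v v' : ℕ × ℕ) (h1 : 2 * bl lam v.1 ≤ len lam v.1)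
    (h2 : 2 * bl lam v'.1 ≤ len lam v'.1)
    (h : v.2 + bl lam v.1 ≤ v'.2) (h' : v'.2 + len lam v'.1 + bl lam v.1 ≤ v.2 + len lam v.1) :
    Sep lam v v' ∧ Sep lam v' v := by
  unfold Sep uB vB bet
  simp only [Finset.disjoint_left, Finset.mem_Ico]
  exact ⟨⟨fun x hx hx' => by omega, fun _ x hx hx' => by omega, fun _ x hx hx' => by omega⟩,
    ⟨fun x hx hx' => by omega, fun _ x hx hx' => by omega, fun _ x hx hx' => by omega⟩⟩

theorem sep_self (lam : ℕ) (v : ℕ × ℕ) (h1 : 2 * bl lam v.1 ≤ len lam v.1) : Sep lam v v := by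
  refine ⟨?_, fun h => absurd rfl h, fun h => absurd rfl h⟩
  unfold uB vB bet
  simp only [Finset.disjoint_left, Finset.mem_Ico]
  intro x hx hx'
  omega

theorem N3 (hN1 : S_N1) : S_N3 := by
  intro lam h
  induction h with
  | zero =>
    intro a v hv v' hv'
    have hb := (hN1 lam 0 a v hv).2.2.2
    simp only [nodes, Finset.mem_singleton] at hv hv'
    subst hv
    subst hv'
    exact sep_self _ _ hb
  | succ h ih =>
    intro a v hv v' hv'
    have hb := (hN1 lam (h + 1) a v hv).2.2.2
    have hb' := (hN1 lam (h + 1) a v' hv').2.2.2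
    have e := len_succ lam h
    simp only [nodes, Finset.mem_insert, Finset.mem_union] at hv hv'
    rcases hv with hv | hv | hv
    · rcases hv' with hv' | hv' | hv'
      · subst hv
        subst hv'
        exact sep_self _ _ hb
      · obtain ⟨_, g2, g3, _⟩ := hN1 _ _ _ _ hv'
        subst hv
        refine (sep_in _ _ _ hb hb' ?_ ?_).1
        · exact g2
        · simp only
          omega
      · obtain ⟨_, g2, g3, _⟩ := hN1 _ _ _ _ hv'
        subst hv
        refine (sep_in _ _ _ hb hb' ?_ ?_).1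
        · simp only
          omega
        · simp only
          omega
    · rcases hv' with hv' | hv' | hv'
      · obtain ⟨_, g2, g3, _⟩ := hN1 _ _ _ _ hv
        subst hv'
        refine (sep_in _ _ _ hb' hb ?_ ?_).2
        · exact g2
        · simp only
          omega
      · exact ih _ v hv v' hv'
      · obtain ⟨_, g2, g3, _⟩ := hN1 _ _ _ _ hv
        obtain ⟨_, g2', g3', _⟩ := hN1 _ _ _ _ hv'
        apply sep_disj _ _ _ hb hb'
        omega
    · rcases hv' with hv' | hv' | hv'
      · obtain ⟨_, g2, g3, _⟩ := hN1 _ _ _ _ hv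
        subst hv'
        refine (sep_in _ _ _ hb' hb ?_ ?_).2
        · simp only
          omega
        · simp only
          omega
      · obtain ⟨_, g2, g3, _⟩ := hN1 _ _ _ _ hv
        obtain ⟨_, g2', g3', _⟩ := hN1 _ _ _ _ hv'
        apply sep_disj _ _ _ hb hb'
        omega
      · exact ih _ v hv v' hv'

end Pool.Agent.H822R4.DK.TN3
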