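import Pool.Agent.H822R4.DK.Defs

/-! Task N4 (helper439): total length of the blocks of the nodes of height at least `j`. -/

set_option autoImplicit false

namespace Pool.Agent.H822R4.DK.TN4

open Pool.Agent.H822R4.DK

theorem card_aux (lam : ℕ) : ∀ h a : ℕ, (nodes lam h a).card + 1 ≤ 2 ^ (h + 1) := by
  intro h
  induction h with
  | zero =>
    intro a
    simp [nodes]
  | succ h ih =>
    intro a
    have h1 := ih (a + bl lam (h + 1))
    have h2 := ih (a + bl lam (h + 1) + len lam h)
    have h3 : (nodes lam (h + 1) a).card ≤ (nodes lam h (a + bl lam (h + 1)) ∪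
        nodes lam h (a + bl lam (h + 1) + len lam h)).card + 1 := by
      rw [nodes]
      exact Finset.card_insert_le _ _
    have h4 := Finset.card_union_le (nodes lam h (a + bl lam (h + 1)))
      (nodes lam h (a + bl lam (h + 1) + len lam h))
    have h5 : 2 ^ (h + 1 + 1) = 2 * 2 ^ (h + 1) := by ring
    omega

theorem sum_aux (hN1 : S_N1) (lam : ℕ) (hlam : 1 ≤ lam) : ∀ h a j : ℕ, j ≤ h →
    ∑ v ∈ (nodes lam h a).filter (fun v => j ≤ v.1), bl lam v.1 = (h + 1 - j) * (lam * 2 ^ h) := by
  intro h
  induction h with
  | zero =>
    intro a j hj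
    have hj0 : j = 0 := by omega
    subst hj0
    have : (nodes lam 0 a).filter (fun v => 0 ≤ v.1) = {(0, a)} := by
      rw [nodes]
      exact Finset.filter_true_of_mem (fun _ _ => Nat.zero_le _)
    rw [this, Finset.sum_singleton]
    simp [bl]
  | succ h ih =>
    intro a j hj
    have hA := hN1 lam h (a + bl lam (h + 1))
    have hB := hN1 lam h (a + bl lam (h + 1) + len lam h)
    have hlen : ∀ i, 0 < len lam i := by
      intro i
      unfold len
      have : 0 < 2 ^ i := by positivity
      positivity
    have hdis : Disjoint (nodes lam h (a + bl lam (h + 1)))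
        (nodes lam h (a + bl lam (h + 1) + len lam h)) := by
      rw [Finset.disjoint_left]
      intro v h1 h2
      have e1 := (hA v h1).2.2.1
      have e2 := (hB v h2).2.1
      have e3 := hlen v.1
      omega
    have hnot : (h + 1, a) ∉ nodes lam h (a + bl lam (h + 1)) ∪
        nodes lam h (a + bl lam (h + 1) + len lam h) := by
      rw [Finset.mem_union]
      rintro (h1 | h1)
      · have := (hA _ h1).1
        simp at this
      · have := (hB _ h1).1
        simp at this
    rw [Finset.sum_filter, nodes, Finset.sum_insert hnot, Finset.sum_union hdis, if_pos hj,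
      ← Finset.sum_filter, ← Finset.sum_filter]
    rcases Nat.lt_or_ge h j with hlt | hle
    · have hj1 : j = h + 1 := by omega
      subst hj1
      have eA : (nodes lam h (a + bl lam (h + 1))).filter (fun v => h + 1 ≤ v.1) = ∅ := by
        apply Finset.filter_false_of_mem
        intro v hv
        have := (hA v hv).1
        omega
      have eB : (nodes lam h (a + bl lam (h + 1) + len lam h)).filter (fun v => h + 1 ≤ v.1) =
          ∅ := by
        apply Finset.filter_false_of_mem
        intro v hv
        have := (hB v hv).1
        omega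
      rw [eA, eB, Finset.sum_empty, add_zero, add_zero]
      have : h + 1 + 1 - (h + 1) = 1 := by omega
      rw [this, one_mul]
      rfl
    · rw [ih _ j hle, ih _ j hle]
      obtain ⟨d, rfl⟩ := Nat.exists_eq_add_of_le hle
      have e1 : j + d + 1 - j = d + 1 := by omega
      have e2 : j + d + 1 + 1 - j = d + 2 := by omega
      rw [e1, e2]
      show lam * 2 ^ (j + d + 1) + _ = _
      ring

theorem N4 (hN1 : S_N1) : S_N4 := by
  intro lam h a j hlam hj
  refine ⟨sum_aux hN1 lam hlam h a j hj, ?_⟩
  have := card_aux lam h a
  omega

end Pool.Agent.H822R4.DK.TN4
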