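import Mathlib
import Pool.Agent.H822R4.DK.Defs

/-! NUM: choice of the parameters. -/

set_option autoImplicit false

namespace Pool.Agent.H822R4.DK.TNUM

open Pool.Agent.H822R4.DK
open Filter

lemma ev_log (C : ℝ) (p : ℕ) (ε : ℝ) (hε : 0 < ε) :
    ∀ᶠ n : ℕ in atTop, C * (Real.log n) ^ p ≤ (n : ℝ) ^ ε := by
  have h1 := isLittleO_log_rpow_rpow_atTop (p : ℝ) hε
  have h2 := (h1.const_mul_left C).comp_tendsto (tendsto_natCast_atTop_atTop (R := ℝ))
  have h3 := h2.bound (c := 1) one_pos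
  filter_upwards [h3, eventually_ge_atTop 1] with n hn h1n
  have hlog : 0 ≤ Real.log n := Real.log_nonneg (by exact_mod_cast h1n)
  simp only [Function.comp_apply, one_mul, Real.rpow_natCast] at hn
  have h4 : ‖(n : ℝ) ^ ε‖ = (n : ℝ) ^ ε := Real.norm_of_nonneg (by positivity)
  rw [h4] at hn
  exact (le_abs_self _).trans hn

lemma ev_large (C : ℝ) : ∀ᶠ n : ℕ in atTop, C ≤ Real.log n :=
  (Real.tendsto_log_atTop.comp (tendsto_natCast_atTop_atTop (R := ℝ))).eventually_ge_atTop C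

/-- the exponents -/
lemma expo {k h : ℕ} {δ Y L l x E : ℝ} (hl : 1 ≤ l) (hL0 : 0 ≤ L) (hL : L ≤ 2 * l)
    (hh : (h : ℝ) + 1 ≤ l) (hY : 0 ≤ Y) (hx : 0 < x)
    (h1 : 16 * l ^ 2 * Y ≤ x) (h2 : 32 * k * l ^ 3 + 112 * l ^ 2 ≤ x)
    (hE : E = L * 2 + ((Y + L * k) * (h + 1) + 2 * h)) : 8 * l * (E + 1) ≤ x := by
  have hk : (0 : ℝ) ≤ k := Nat.cast_nonneg k
  have hh0 : (0 : ℝ) ≤ h := Nat.cast_nonneg h
  have a1 : (Y + L * k) * (h + 1) ≤ (Y + 2 * l * k) * l := by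
    refine mul_le_mul ?_ hh (by positivity) (by positivity)
    have := mul_le_mul_of_nonneg_right hL hk
    linarith
  have a2 : E + 1 ≤ l * Y + 2 * k * l ^ 2 + 7 * l := by
    have e : (Y + 2 * l * k) * l = l * Y + 2 * k * l ^ 2 := by ring
    rw [hE]
    linarith
  have a3 := mul_le_mul_of_nonneg_left a2 (by positivity : (0 : ℝ) ≤ 8 * l)
  have e : 8 * l * (l * Y + 2 * k * l ^ 2 + 7 * l) =
    (16 * l ^ 2 * Y) / 2 + (32 * k * l ^ 3 + 112 * l ^ 2) / 2 := by ring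
  linarith

/-- the product is a power of two -/
lemma pow_bound {n c k h m : ℕ} {Y L E : ℝ} (hL : (n : ℝ) + 2 = (2 : ℝ) ^ L)
    (hc : (c : ℝ) ≤ (2 : ℝ) ^ Y) (hE : E = L * 2 + ((Y + L * k) * (h + 1) + 2 * h))
    (hm : E < m) : (n + 2) ^ 2 * ((c * (n + 2) ^ k) ^ (h + 1) * 3 ^ h) < 2 ^ m := by
  have h2 : (0 : ℝ) < 2 := by norm_num
  have key : ((n : ℝ) + 2) ^ 2 * (((c : ℝ) * ((n : ℝ) + 2) ^ k) ^ (h + 1) * 3 ^ h) < 2 ^ m := by
    have e1 : (2 : ℝ) ^ E = ((2 : ℝ) ^ L) ^ 2 *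
        (((2 : ℝ) ^ Y * ((2 : ℝ) ^ L) ^ k) ^ (h + 1) * ((2 : ℝ) ^ 2) ^ h) := by
      rw [hE, Real.rpow_add h2, Real.rpow_add h2]
      congr 1
      · have := Real.rpow_mul_natCast h2.le L 2
        exact_mod_cast this
      · congr 1
        · have a := Real.rpow_mul_natCast h2.le (Y + L * k) (h + 1)
          have b := Real.rpow_mul_natCast h2.le L k
          rw [Real.rpow_add h2, b] at a
          rw [← a]
          push_cast
          rfl
        · rw [← pow_mul, ← Real.rpow_natCast]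
          push_cast
          rfl
    calc ((n : ℝ) + 2) ^ 2 * (((c : ℝ) * ((n : ℝ) + 2) ^ k) ^ (h + 1) * 3 ^ h)
        ≤ ((2 : ℝ) ^ L) ^ 2 *
        (((2 : ℝ) ^ Y * ((2 : ℝ) ^ L) ^ k) ^ (h + 1) * ((2 : ℝ) ^ 2) ^ h) := by
          rw [← hL]
          gcongr
          norm_num
      _ = (2 : ℝ) ^ E := e1.symm
      _ < (2 : ℝ) ^ (m : ℝ) := Real.rpow_lt_rpow_of_exponent_lt (by norm_num) hm
      _ = 2 ^ m := Real.rpow_natCast 2 m
  exact_mod_cast key

theorem NUM : S_NUM := by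
  intro k δ hδ hδ1
  obtain ⟨K, hK⟩ : ∃ K : ℝ, K = (k : ℝ) + 1 := ⟨_, rfl⟩
  have hk0 : (0 : ℝ) ≤ k := Nat.cast_nonneg k
  have hK1 : 1 ≤ K := by rw [hK]; linarith
  have hev := ((ev_large (1024 * K ^ 2 / δ)).and ((ev_log 64 2 (3 * δ / 4) (by positivity)).and
    ((ev_log (256 * k + 448) 3 (3 / 4) (by norm_num)).and (eventually_ge_atTop 2))))
  rw [eventually_atTop] at hev
  obtain ⟨N, hN⟩ := hev
  refine ⟨N, ?_⟩
  intro n hn hev
  obtain ⟨c1, c2, c3, c4⟩ := hN n hn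
  have hn2 : (2 : ℝ) ≤ n := by exact_mod_cast c4
  have hn0 : (0 : ℝ) < n := by linarith
  obtain ⟨X, hX⟩ : ∃ X : ℝ, X = Real.log n := ⟨_, rfl⟩
  rw [← hX] at c1 c2 c3
  obtain ⟨l, hl⟩ : ∃ l : ℝ, l = Real.logb 2 n := ⟨_, rfl⟩
  have hl2 := Real.log_two_gt_d9
  have hl2' := Real.log_two_lt_d9
  have hlX : l * Real.log 2 = X := by
    rw [hl, hX, Real.logb]
    field_simp
  have hbig : (1024 : ℝ) ≤ 1024 * K ^ 2 / δ := by
    rw [le_div_iff₀ hδ]
    nlinarith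
  have hX1 : 1024 ≤ X := by linarith
  have hl0 : 0 < l := by
    by_contra h
    have : l * Real.log 2 ≤ 0 := mul_nonpos_of_nonpos_of_nonneg (not_lt.mp h) (by linarith)
    linarith
  have hXl : X ≤ l := by nlinarith
  have hl2X : l ≤ 2 * X := by nlinarith
  have hl1 : 1024 ≤ l := by linarith
  -- the height
  obtain ⟨h, hh⟩ : ∃ h : ℕ, h = ⌊δ / 4 * l⌋₊ := ⟨_, rfl⟩
  have hh1 : (h : ℝ) ≤ δ / 4 * l := by rw [hh]; exact Nat.floor_le (by positivity)
  have hh2 : δ / 4 * l < h + 1 := by rw [hh]; exact Nat.lt_floor_add_one _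
  have hδl : 128 * K ^ 2 ≤ δ / 8 * l := by
    have h1 : 1024 * K ^ 2 / δ ≤ l := c1.trans hXl
    rw [div_le_iff₀ hδ] at h1
    linarith
  have hh3 : δ / 8 * l ≤ h := by nlinarith
  have hh4 : 128 * K ^ 2 ≤ (h : ℝ) := hδl.trans hh3
  have hh5 : 1 ≤ h := by
    have : (1 : ℝ) ≤ h := by nlinarith
    exact_mod_cast this
  have hh6 : (h : ℝ) + 1 ≤ l := by nlinarith
  -- `2 ^ h`
  have h2h : (2 : ℝ) ^ h ≤ (n : ℝ) ^ (δ / 4) := by
    have e1 : (n : ℝ) = (2 : ℝ) ^ l := by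
      rw [hl, Real.rpow_logb (by norm_num) (by norm_num) hn0]
    rw [e1, ← Real.rpow_mul (by norm_num), ← Real.rpow_natCast]
    exact Real.rpow_le_rpow_of_exponent_le (by norm_num) (by linarith)
  obtain ⟨q, hq⟩ : ∃ q : ℕ, q = 2 * 2 ^ h * (h + 1) := ⟨_, rfl⟩
  have hq0 : 0 < q := by rw [hq]; positivity
  have hqr : (q : ℝ) = 2 * 2 ^ h * (h + 1) := by rw [hq]; push_cast; ring
  obtain ⟨A, hA⟩ : ∃ A : ℝ, A = (n : ℝ) ^ (δ / 4) := ⟨_, rfl⟩
  have hA0 : 0 < A := by rw [hA]; positivity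
  have hql : (q : ℝ) ≤ 2 * A * l := by
    rw [hqr, hA]
    gcongr
  obtain ⟨x, hx⟩ : ∃ x : ℝ, x = (n : ℝ) ^ (1 - δ / 4) := ⟨_, rfl⟩
  have hx0 : 0 < x := by rw [hx]; positivity
  have hAx : A * x = n := by
    rw [hA, hx, ← Real.rpow_add hn0]
    have : δ / 4 + (1 - δ / 4) = 1 := by ring
    rw [this, Real.rpow_one]
  have hx34 : (n : ℝ) ^ (3 / 4 : ℝ) ≤ x := by
    rw [hx]
    exact Real.rpow_le_rpow_of_exponent_le (by linarith) (by linarith)
  have hpoly : 32 * k * l ^ 3 + 112 * l ^ 2 ≤ x := by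
    refine le_trans ?_ (c3.trans hx34)
    have p3 : l ^ 3 ≤ (2 * X) ^ 3 := pow_le_pow_left₀ hl0.le hl2X 3
    have p2 : l ^ 2 ≤ (2 * X) ^ 2 := pow_le_pow_left₀ hl0.le hl2X 2
    have p4 : X ^ 2 ≤ X ^ 3 := pow_le_pow_right₀ (by linarith) (by norm_num)
    have p5 : 32 * (k : ℝ) * l ^ 3 ≤ 32 * k * (2 * X) ^ 3 :=
      mul_le_mul_of_nonneg_left p3 (by positivity)
    have e1 : 32 * (k : ℝ) * (2 * X) ^ 3 = 256 * k * X ^ 3 := by ring
    have e2 : (2 * X) ^ 2 = 4 * X ^ 2 := by ring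
    rw [e1] at p5
    rw [e2] at p2
    have e3 : (256 * (k : ℝ) + 448) * X ^ 3 = 256 * k * X ^ 3 + 448 * X ^ 3 := by ring
    rw [e3]
    linarith
  obtain ⟨Y, hY⟩ : ∃ Y : ℝ, Y = (n : ℝ) ^ (1 - δ) := ⟨_, rfl⟩
  have hY0 : 0 < Y := by rw [hY]; positivity
  have hYx : 16 * l ^ 2 * Y ≤ x := by
    have p2 : l ^ 2 ≤ (2 * X) ^ 2 := pow_le_pow_left₀ hl0.le hl2X 2
    have e2 : (2 * X) ^ 2 = 4 * X ^ 2 := by ring
    rw [e2] at p2
    have p3 : 16 * l ^ 2 ≤ (n : ℝ) ^ (3 * δ / 4) := by linarith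
    have e3 : (n : ℝ) ^ (3 * δ / 4) * Y = x := by
      rw [hY, hx, ← Real.rpow_add hn0]
      congr 1
      ring
    rw [← e3]
    exact mul_le_mul_of_nonneg_right p3 hY0.le
  -- the other parameters
  obtain ⟨lam, hlam⟩ : ∃ lam : ℕ, lam = n / q := ⟨_, rfl⟩
  have hlen : len lam h = lam * q := by
    unfold len
    rw [hq]
    ring
  have hmod : lam * q + n % q = n := by
    rw [hlam, mul_comm]
    exact Nat.div_add_mod n q
  have hmodlt : n % q < q := Nat.mod_lt _ hq0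
  obtain ⟨r, hr⟩ : ∃ r : ℕ, n % q = 2 * r := by
    have h1 : Even (n % q) := by
      have h2 : Even (lam * q) := by
        rw [hq]
        refine Even.mul_left ?_ _
        rw [mul_assoc]
        exact even_two_mul _
      have h3 := hev
      rw [← hmod] at h3
      exact (Nat.even_add.mp h3).mp h2
    obtain ⟨r, hr⟩ := h1
    exact ⟨r, by omega⟩
  obtain ⟨m, hm⟩ : ∃ m : ℕ, m = lam / 4 := ⟨_, rfl⟩
  have hm4 : lam + 1 ≤ 4 * (m + 1) := by omega
  have hnlt : (n : ℝ) < 4 * ((m : ℝ) + 1) * q := by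
    have h1 : n < (lam + 1) * q := by
      calc n = lam * q + n % q := hmod.symm
        _ < lam * q + q := Nat.add_lt_add_left hmodlt _
        _ = (lam + 1) * q := by ring
    have h2 : (lam + 1) * q ≤ 4 * (m + 1) * q := Nat.mul_le_mul_right _ hm4
    have h3 : n < 4 * (m + 1) * q := lt_of_lt_of_le h1 h2
    exact_mod_cast h3
  have hxm : x < 8 * l * ((m : ℝ) + 1) := by
    have h1 : 4 * ((m : ℝ) + 1) * q ≤ 4 * ((m : ℝ) + 1) * (2 * A * l) :=
      mul_le_mul_of_nonneg_left hql (by positivity)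
    have h2 : A * x < A * (8 * l * ((m : ℝ) + 1)) := by
      rw [hAx]
      refine lt_of_lt_of_le (lt_of_lt_of_le hnlt h1) (le_of_eq (by ring))
    exact lt_of_mul_lt_mul_left h2 hA0.le
  -- the logarithm of `n + 2`
  obtain ⟨L, hL⟩ : ∃ L : ℝ, L = Real.logb 2 ((n : ℝ) + 2) := ⟨_, rfl⟩
  have hL0 : 0 ≤ L := by rw [hL]; exact Real.logb_nonneg (by norm_num) (by linarith)
  have hL2 : L ≤ 2 * l := by
    rw [hL, hl]
    have h1 : (n : ℝ) + 2 ≤ (n : ℝ) ^ 2 := by nlinarith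
    calc Real.logb 2 ((n : ℝ) + 2) ≤ Real.logb 2 ((n : ℝ) ^ 2) :=
          Real.logb_le_logb_of_le (by norm_num) (by linarith) h1
      _ = 2 * Real.logb 2 n := by
          rw [Real.logb_pow]
          norm_num
  have hLp : (n : ℝ) + 2 = (2 : ℝ) ^ L := by
    rw [hL, Real.rpow_logb (by norm_num) (by norm_num) (by linarith)]
  obtain ⟨E, hE⟩ : ∃ E : ℝ, E = L * 2 + ((Y + L * k) * (h + 1) + 2 * h) := ⟨_, rfl⟩
  have hE0 : 0 ≤ E := by
    rw [hE]
    positivity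
  have hEx := expo (k := k) (h := h) (by linarith) hL0 hL2 hh6 hY0.le hx0 hYx hpoly hE (δ := δ)
  have hEm : E < m := by
    have h1 : 8 * l * (E + 1) < 8 * l * ((m : ℝ) + 1) := lt_of_le_of_lt hEx hxm
    have h2 := lt_of_mul_lt_mul_left h1 (by positivity)
    linarith
  have hm1 : 1 ≤ m := by
    have : (0 : ℝ) < m := lt_of_le_of_lt hE0 hEm
    exact_mod_cast this
  refine ⟨lam, h, r, m, ?_, hm1, by omega, hh5, ?_, ?_⟩
  · rw [hlen, ← hr, hmod]
  · intro c hc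
    rw [← hY] at hc
    exact pow_bound hLp hc hE hEm
  · intro t ht
    -- `len` is large
    have hlenr : (len lam h : ℝ) = lam * q := by rw [hlen]; push_cast; ring
    have hq2 : 2 * (q : ℝ) ≤ n := by
      have h1 : 4 * l ≤ x := by
        have : 4 * l ≤ 32 * k * l ^ 3 + 112 * l ^ 2 := by
          have : 0 ≤ 32 * (k : ℝ) * l ^ 3 := by positivity
          nlinarith
        linarith
      have h2 : A * (4 * l) ≤ A * x := mul_le_mul_of_nonneg_left h1 hA0.le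
      rw [hAx] at h2
      linarith
    have hlen2 : (n : ℝ) / 2 ≤ len lam h := by
      have h1 : (n : ℝ) = lam * q + (n % q : ℕ) := by
        have := hmod
        exact_mod_cast this.symm
      have h2 : ((n % q : ℕ) : ℝ) ≤ q := by exact_mod_cast hmodlt.le
      rw [hlenr]
      linarith
    have hlen0 : (0 : ℝ) ≤ len lam h := Nat.cast_nonneg _
    have ht0 : (0 : ℝ) ≤ t := Nat.cast_nonneg _
    have hkK : (k : ℝ) ≤ K := by rw [hK]; linarith
    have hkK2 : (k : ℝ) ^ 2 ≤ K ^ 2 := pow_le_pow_left₀ hk0 hkK 2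
    have hkK1 : (k : ℝ) ≤ K ^ 2 := by nlinarith
    have hmain : (h : ℝ) * len lam h ≤ 128 * K ^ 2 * t := by
      rcases ht with ht | ht
      · have h1 : (h : ℝ) * len lam h ≤ 64 * (k : ℝ) ^ 2 * (t + len lam h) := by
          exact_mod_cast ht
        have h2 : 64 * (k : ℝ) ^ 2 * (t + len lam h) ≤ 64 * K ^ 2 * (t + len lam h) := by
          gcongr
        have h3 : 128 * K ^ 2 * (len lam h : ℝ) ≤ h * len lam h :=
          mul_le_mul_of_nonneg_right hh4 hlen0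
        have e : 64 * K ^ 2 * ((t : ℝ) + len lam h) = (128 * K ^ 2 * t) / 2 +
          (128 * K ^ 2 * len lam h) / 2 := by ring
        linarith
      · have h1 : (h : ℝ) * len lam h ≤ 64 * (k : ℝ) * t := by
          exact_mod_cast ht
        have h2 : 64 * (k : ℝ) * t ≤ 64 * K ^ 2 * t := by
          gcongr
        have h3 : 0 ≤ K ^ 2 * (t : ℝ) := by positivity
        linarith
    have hlow : δ / 8 * l * (n / 2) ≤ h * len lam h := by
      refine mul_le_mul hh3 hlen2 (by positivity) (Nat.cast_nonneg _)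
    have hfin : δ / 8 * X * (n / 2) ≤ δ / 8 * l * (n / 2) := by
      gcongr
    rw [← hX, ← hK]
    have hKp : 0 < K ^ 2 := by positivity
    have h5 : δ / 8 * X * (n / 2) ≤ 128 * K ^ 2 * t := hfin.trans (hlow.trans hmain)
    rw [div_mul_eq_mul_div, div_le_iff₀ (by positivity)]
    linarith

end Pool.Agent.H822R4.DK.TNUM
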