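import Pool.Agent.H822R4.DK.Defs

set_option autoImplicit false

namespace Pool.Agent.H822R4.DK.TTRV

open Pool.Agent.H822R4.DK

theorem TRV : S_TRV := by
  classical
  intro ι V w s t W h1 h2
  have hd : (V : Set ι).PairwiseDisjoint (fun v => Finset.Ico (s v) (s v + w v)) := by
    intro a ha b hb hab
    rw [Function.onFun, Finset.disjoint_left]
    intro x hx hy
    rw [Finset.mem_Ico] at hx hy
    rcases le_total (s a) (s b) with h | h
    · have := h2 a ha b hb hab h
      omega
    · have := h2 b hb a ha (Ne.symm hab) h
      omega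
  have h3 : (V.biUnion fun v => Finset.Ico (s v) (s v + w v)) ⊆ Finset.range (t + W) := by
    intro x hx
    rw [Finset.mem_biUnion] at hx
    obtain ⟨v, hv, hx⟩ := hx
    rw [Finset.mem_Ico] at hx
    rw [Finset.mem_range]
    have := h1 v hv
    omega
  have h4 := Finset.card_le_card h3
  rw [Finset.card_biUnion hd, Finset.card_range] at h4
  simpa using h4

end Pool.Agent.H822R4.DK.TTRV
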