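import Pool.Agent.H822R4.DK.Defs

/-! W1: length of the words, and the words with equal types are Dyck words. -/

set_option autoImplicit false

namespace Pool.Agent.H822R4.DK.TW1

open Pool.Agent.H822R4.DK

theorem len_succ (lam h : ℕ) : len lam (h + 1) = 2 * bl lam (h + 1) + 2 * len lam h := by
  unfold len bl
  ring

theorem word_length (lam : ℕ) (z y : ℕ → Bool) (h : ℕ) : ∀ a,
    (word lam z y h a).length = len lam h := by
  induction h with
  | zero =>
    intro a
    simp [word, opens, closes, len, bl]
    ring
  | succ h ih =>
    intro a
    simp only [word, List.length_append, ih, opens, closes, List.length_map, List.length_range]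
    rw [len_succ]
    ring

theorem padw_length (r : ℕ) : (padw r).length = 2 * r := by
  unfold padw
  simp
  ring

theorem fold_opens (L s : List Bool) :
    (L.map fun b => ((true, b) : Letter)).foldl push1 (some s) = some (L.reverse ++ s) := by
  induction L generalizing s with
  | nil => rfl
  | cons b L ih =>
    rw [List.map_cons, List.foldl_cons]
    show (L.map fun b => ((true, b) : Letter)).foldl push1 (some (b :: s)) = _
    rw [ih]
    simp

theorem fold_closes (L s : List Bool) :
    (L.map fun b => ((false, b) : Letter)).foldl push1 (some (L ++ s)) = some s := by
  induction L with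
  | nil => rfl
  | cons b L ih =>
    rw [List.map_cons, List.foldl_cons]
    have : push1 (some (b :: L ++ s)) ((false, b) : Letter) = some (L ++ s) := by
      show (if b = b then some (L ++ s) else none) = some (L ++ s)
      rw [if_pos rfl]
    rw [this, ih]

theorem rev_eq (z : ℕ → Bool) (a l : ℕ) :
    ((List.range l).map fun r => z (a + r)).reverse =
      (List.range l).map fun r => z (a + (l - 1 - r)) := by
  apply List.ext_getElem
  · simp
  · intro i h1 h2
    simp [List.getElem_reverse]

theorem opens_fold (z : ℕ → Bool) (a l : ℕ) (s : List Bool) :
    (opens z a l).foldl push1 (some s) =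
      some (((List.range l).map fun r => z (a + (l - 1 - r))) ++ s) := by
  have h : opens z a l = ((List.range l).map fun r => z (a + r)).map
      fun b => ((true, b) : Letter) := by
    unfold opens
    rw [List.map_map]
    rfl
  rw [h, fold_opens, rev_eq]

theorem closes_fold (y : ℕ → Bool) (a l : ℕ) (s : List Bool) :
    (closes y a l).foldl push1 (some (((List.range l).map fun r => y (a + (l - 1 - r))) ++ s)) =
      some s := by
  have h : closes y a l = ((List.range l).map fun r => y (a + (l - 1 - r))).map
      fun b => ((false, b) : Letter) := by
    unfold closes
    rw [List.map_map]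
    rfl
  rw [h, fold_closes]

theorem word_fold (lam : ℕ) (z : ℕ → Bool) (h : ℕ) : ∀ (a : ℕ) (s : List Bool),
    (word lam z z h a).foldl push1 (some s) = some s := by
  induction h with
  | zero =>
    intro a s
    rw [word, List.foldl_append, opens_fold, closes_fold]
  | succ h ih =>
    intro a s
    rw [word, List.foldl_append, opens_fold, List.foldl_append, ih, List.foldl_append, ih,
      closes_fold]

theorem padw_fold (r : ℕ) (s : List Bool) : (padw r).foldl push1 (some s) = some s := by
  induction r with
  | zero => rfl
  | succ r ih =>
    have h : padw (r + 1) = [((true, true) : Letter), (false, true)] ++ padw r := by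
      unfold padw
      rw [List.replicate_succ, List.flatten_cons]
    rw [h, List.foldl_append]
    have h2 : ([((true, true) : Letter), (false, true)]).foldl push1 (some s) = some s := by
      show (if true = true then some s else none) = some s
      rw [if_pos rfl]
    rw [h2, ih]

theorem W1 : S_W1 := by
  intro lam h r z y
  refine ⟨?_, ?_⟩
  · rw [full, List.length_append, word_length, padw_length]
  · show (full lam h r z z).foldl push1 (some []) = some []
    rw [full, List.foldl_append, word_fold, padw_fold]

end Pool.Agent.H822R4.DK.TW1
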