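import Pool.Agent.H822R4.DK.Defs

/-! Task W2 (helper439): a mismatch is not a Dyck word. -/

set_option autoImplicit false

namespace Pool.Agent.H822R4.DK.TW2

open Pool.Agent.H822R4.DK

theorem foldl_none (w : List Letter) : w.foldl push1 none = none := by
  induction w with
  | nil => rfl
  | cons l w ih =>
    rw [List.foldl_cons]
    have : push1 none l = none := by
      unfold push1
      rfl
    rw [this, ih]

theorem foldl_open (u : List Bool) : ∀ s : List Bool,
    (u.map (fun b => ((true, b) : Letter))).foldl push1 (some s) = some (u.reverse ++ s) := by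
  induction u with
  | nil => intro s; rfl
  | cons b u ih =>
    intro s
    rw [List.map_cons, List.foldl_cons]
    have : push1 (some s) (true, b) = some (b :: s) := by
      cases s <;> rfl
    rw [this, ih, List.reverse_cons, List.append_assoc]
    rfl

theorem foldl_close (s s' : List Bool) (u' : List Bool) : ∀ u : List Bool, u.length = u'.length →
    (u'.map (fun b => ((false, b) : Letter))).foldl push1 (some (u ++ s)) = some s' →
    u = u' ∧ s' = s := by
  induction u' with
  | nil =>
    intro u hu h
    have hu0 : u = [] := List.length_eq_zero_iff.1 hu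
    subst hu0
    refine ⟨rfl, ?_⟩
    rw [List.map_nil, List.foldl_nil, List.nil_append] at h
    exact (Option.some.inj h).symm
  | cons b u' ih =>
    intro u hu h
    cases u with
    | nil => simp at hu
    | cons c u =>
      rw [List.map_cons, List.foldl_cons, List.cons_append] at h
      have h1 : push1 (some (c :: (u ++ s))) (false, b) = if c = b then some (u ++ s) else none :=
        rfl
      rw [h1] at h
      by_cases hcb : c = b
      · rw [if_pos hcb] at h
        have hlen : u.length = u'.length := by
          simpa using hu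
        obtain ⟨e1, e2⟩ := ih u hlen h
        rw [e1, hcb]
        exact ⟨rfl, e2⟩
      · rw [if_neg hcb, foldl_none] at h
        exact absurd h (by simp)

theorem opens_eq (z : ℕ → Bool) (a l : ℕ) :
    opens z a l = ((List.range l).map fun r => z (a + r)).map (fun b => ((true, b) : Letter)) := by
  unfold opens
  rw [List.map_map]
  rfl

theorem closes_eq (y : ℕ → Bool) (a l : ℕ) :
    closes y a l = ((List.range l).map fun r => y (a + (l - 1 - r))).map
      (fun b => ((false, b) : Letter)) := by
  unfold closes
  rw [List.map_map]
  rfl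

theorem rev_eq (y : ℕ → Bool) (a l : ℕ) :
    ((List.range l).map fun r => y (a + (l - 1 - r))) =
      ((List.range l).map fun r => y (a + r)).reverse := by
  apply List.ext_getElem
  · simp
  · intro i h1 h2
    simp

theorem block (z y : ℕ → Bool) (a l : ℕ) (s s' : List Bool)
    (h : (closes y a l).foldl push1 (some (((List.range l).map fun r => z (a + r)).reverse ++ s)) =
      some s') : (∀ r, r < l → z (a + r) = y (a + r)) ∧ s' = s := by
  rw [closes_eq] at h
  obtain ⟨h1, h2⟩ := foldl_close s s' _ _ (by simp) h
  refine ⟨?_, h2⟩
  rw [rev_eq] at h1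
  have h3 := List.reverse_injective h1
  intro r hr
  exact List.map_inj_left.1 h3 r (List.mem_range.2 hr)

theorem some_of (w : List Letter) (t : Option (List Bool)) (s' : List Bool)
    (h : w.foldl push1 t = some s') : ∃ s, t = some s := by
  cases t with
  | none =>
    rw [foldl_none] at h
    exact absurd h (by simp)
  | some s => exact ⟨s, rfl⟩

theorem key (lam : ℕ) (z y : ℕ → Bool) : ∀ (h a : ℕ) (s s' : List Bool),
    (word lam z y h a).foldl push1 (some s) = some s' →
    s' = s ∧ ∀ v ∈ nodes lam h a, ∀ p ∈ uB lam v, z p = y p := by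
  intro h
  induction h with
  | zero =>
    intro a s s' hs
    rw [word, List.foldl_append, opens_eq, foldl_open] at hs
    obtain ⟨h1, h2⟩ := block z y a _ s s' hs
    refine ⟨h2, ?_⟩
    intro v hv p hp
    rw [nodes, Finset.mem_singleton] at hv
    subst hv
    rw [uB, Finset.mem_Ico] at hp
    simp only at hp
    obtain ⟨r, rfl⟩ := Nat.exists_eq_add_of_le hp.1
    exact h1 r (by omega)
  | succ h ih =>
    intro a s s' hs
    rw [word, List.foldl_append, opens_eq, foldl_open, List.foldl_append] at hs
    obtain ⟨s1, hs1⟩ := some_of _ _ _ hs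
    obtain ⟨e1, f1⟩ := ih _ _ _ hs1
    rw [hs1, e1, List.foldl_append] at hs
    obtain ⟨s2, hs2⟩ := some_of _ _ _ hs
    obtain ⟨e2, f2⟩ := ih _ _ _ hs2
    rw [hs2, e2] at hs
    obtain ⟨h1, h2⟩ := block z y a _ s s' hs
    refine ⟨h2, ?_⟩
    intro v hv p hp
    rw [nodes, Finset.mem_insert, Finset.mem_union] at hv
    rcases hv with rfl | hv | hv
    · rw [uB, Finset.mem_Ico] at hp
      simp only at hp
      obtain ⟨r, rfl⟩ := Nat.exists_eq_add_of_le hp.1
      exact h1 r (by omega)
    · exact f1 v hv p hp
    · exact f2 v hv p hp

theorem W2 : S_W2 := by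
  intro lam h r z y v hv p hp hne hD
  unfold Dyck full at hD
  rw [List.foldl_append] at hD
  obtain ⟨s, hs⟩ := some_of _ _ _ hD
  exact hne ((key lam z y h 1 [] s hs).2 v hv p hp)

end Pool.Agent.H822R4.DK.TW2
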