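import Pool.Agent.H822R4.DK.Defs

/-!
Task W3: locality of the words.
-/

set_option autoImplicit false

namespace Pool.Agent.H822R4.DK.TW3

open Pool.Agent.H822R4.DK

theorem len_opens (z : ℕ → Bool) (a l : ℕ) : (opens z a l).length = l := by
  simp [opens]

theorem len_closes (y : ℕ → Bool) (a l : ℕ) : (closes y a l).length = l := by
  simp [closes]

theorem len_succ (lam h : ℕ) : len lam (h + 1) = 2 * bl lam (h + 1) + 2 * len lam h := by
  unfold len bl
  rw [pow_succ]
  ring

theorem len_word (lam : ℕ) (z y : ℕ → Bool) : ∀ h a : ℕ,
    (word lam z y h a).length = len lam h := by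
  intro h
  induction h with
  | zero =>
    intro a
    simp only [word, List.length_append, len_opens, len_closes]
    unfold len bl
    ring
  | succ h ih =>
    intro a
    simp only [word, List.length_append, len_opens, len_closes, ih]
    rw [len_succ]
    ring

theorem get_opens (z : ℕ → Bool) (a l i : ℕ) (h : i < l) :
    (opens z a l)[i]? = some (true, z (a + i)) := by
  simp [opens, h]

theorem get_closes (y : ℕ → Bool) (a l i : ℕ) (h : i < l) :
    (closes y a l)[i]? = some (false, y (a + (l - 1 - i))) := by
  simp [closes, h]

theorem get_closes_ge (y : ℕ → Bool) (a l i : ℕ) (h : l ≤ i) :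
    (closes y a l)[i]? = none := by
  rw [List.getElem?_eq_none_iff, len_closes]
  exact h

/-- dependence on `z` -/
theorem word_z (lam : ℕ) (z z' y : ℕ → Bool) : ∀ h a i : ℕ, z (a + i) = z' (a + i) →
    (word lam z y h a)[i]? = (word lam z' y h a)[i]? := by
  intro h
  induction h with
  | zero =>
    intro a i hz
    simp only [word, List.getElem?_append, len_opens]
    split_ifs with h1
    · rw [get_opens _ _ _ _ h1, get_opens _ _ _ _ h1, hz]
    · rfl
  | succ h ih =>
    intro a i hz
    simp only [word, List.getElem?_append, len_opens, len_word]
    split_ifs with h1 h2 h3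
    · rw [get_opens _ _ _ _ h1, get_opens _ _ _ _ h1, hz]
    · apply ih
      have e : a + bl lam (h + 1) + (i - bl lam (h + 1)) = a + i := by omega
      rw [e, hz]
    · apply ih
      have e : a + bl lam (h + 1) + len lam h + (i - bl lam (h + 1) - len lam h) = a + i := by
        omega
      rw [e, hz]
    · rfl

/-- dependence on `y` -/
theorem word_y (lam : ℕ) (z y y' : ℕ → Bool) : ∀ h a i : ℕ,
    (∀ v ∈ nodes lam h a, ∀ r, r < bl lam v.1 → bet lam v + r = a + i →
      y (v.2 + (bl lam v.1 - 1 - r)) = y' (v.2 + (bl lam v.1 - 1 - r))) →
    (word lam z y h a)[i]? = (word lam z y' h a)[i]? := by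
  intro h
  induction h with
  | zero =>
    intro a i hy
    simp only [word, List.getElem?_append, len_opens]
    split_ifs with h1
    · rfl
    · rcases lt_or_ge (i - bl lam 0) (bl lam 0) with h2 | h2
      · rw [get_closes _ _ _ _ h2, get_closes _ _ _ _ h2]
        have hb : bet lam (0, a) = a + bl lam 0 := by
          unfold bet len bl
          simp only
          omega
        have := hy (0, a) (by simp [nodes]) (i - bl lam 0) h2 (by rw [hb]; omega)
        simp only at this
        rw [this]
      · rw [get_closes_ge _ _ _ _ h2, get_closes_ge _ _ _ _ h2]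
  | succ h ih =>
    intro a i hy
    simp only [word, List.getElem?_append, len_opens, len_word]
    split_ifs with h1 h2 h3
    · rfl
    · apply ih
      intro v hv r hr hb
      apply hy v _ r hr
      · rw [hb]; omega
      · simp only [nodes, Finset.mem_insert, Finset.mem_union]
        exact Or.inr (Or.inl hv)
    · apply ih
      intro v hv r hr hb
      apply hy v _ r hr
      · rw [hb]; omega
      · simp only [nodes, Finset.mem_insert, Finset.mem_union]
        exact Or.inr (Or.inr hv)
    · set j := i - bl lam (h + 1) - len lam h - len lam h with hj
      rcases lt_or_ge j (bl lam (h + 1)) with h4 | h4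
      · rw [get_closes _ _ _ _ h4, get_closes _ _ _ _ h4]
        have hb : bet lam (h + 1, a) = a + bl lam (h + 1) + 2 * len lam h := by
          unfold bet
          simp only
          rw [len_succ]
          omega
        have := hy (h + 1, a) (by simp [nodes]) j h4 (by rw [hb]; omega)
        simp only at this
        rw [this]
      · rw [get_closes_ge _ _ _ _ h4, get_closes_ge _ _ _ _ h4]

theorem cell_congr (w w' : List Letter) (q : ℕ) (h : 0 < q → w[q - 1]? = w'[q - 1]?) :
    cell w q = cell w' q := by
  unfold cell
  split_ifs with h0
  · rfl
  · rw [h (by omega)]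

theorem W3 (_hN1 : S_N1) (hN3 : S_N3) : S_W3 := by
  intro lam h r z z' y y'
  constructor
  · intro U hU q hq
    apply cell_congr
    intro hq0
    unfold full
    rw [List.getElem?_append, List.getElem?_append, len_word, len_word]
    split_ifs with h1
    · apply word_z
      have e : 1 + (q - 1) = q := by omega
      rw [e]
      exact hU q hq
    · rfl
  · intro v hv p m hpm hy q hq
    apply cell_congr
    intro hq0
    unfold full
    rw [List.getElem?_append, List.getElem?_append, len_word, len_word]
    split_ifs with h1
    · apply word_y
      intro v' hv' s hs hb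
      apply hy
      intro hmem
      unfold Ub at hmem
      rw [Finset.mem_Ico] at hmem
      by_cases hvv : v' = v
      · subst hvv
        apply hq
        unfold Vb
        rw [Finset.mem_Ico]
        omega
      · have hd := (hN3 lam h 1 v' hv' v hv).2.1 hvv
        have k1 : v'.2 + (bl lam v'.1 - 1 - s) ∈ uB lam v' := by
          unfold uB
          rw [Finset.mem_Ico]
          omega
        have k2 : v'.2 + (bl lam v'.1 - 1 - s) ∈ uB lam v := by
          unfold uB
          rw [Finset.mem_Ico]
          omega
        exact Finset.disjoint_left.1 hd k1 k2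
    · rfl

end Pool.Agent.H822R4.DK.TW3
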